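import Pool.Agent.Work.MP_36677d_fb.FB3
import Pool.Agent.Work.MP_36677d_fb.FB5

/-! # End layers of irreducible subcontinua of hereditarily decomposable continua (helper57) -/

set_option autoImplicit false

open Set Filter Topology

namespace Pool.FL57

open Pool.TL94 Pool.FA57

variable {M : Type} [MetricSpace M]

/-- hereditarily unicoherent, hereditarily decomposable -/
structure LD (M : Type) [MetricSpace M] : Prop where
  hu : HU M
  sc : ∀ a b : M, Cont (seg a b)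
  hd : ∀ C : Set M, Cont C → ∀ x ∈ C, ∀ y ∈ C, x ≠ y → ∃ A B : Set M, Cont A ∧ Cont B ∧ A ⊆ C ∧
    B ⊆ C ∧ ¬ C ⊆ A ∧ ¬ C ⊆ B ∧ C ⊆ A ∪ B

/-- the end layer at `b` of `seg p b` -/
def EL (p b : M) : Set M := {y | y ∈ seg p b ∧ b ∈ seg p y}

theorem mem_el (p b : M) : b ∈ EL p b := ⟨right_mem _ _, right_mem _ _⟩

theorem el_sub (p b : M) : EL p b ⊆ seg p b := fun _ hy => hy.1

theorem el_self (p : M) : EL p p ⊆ {p} := by
  intro y hy
  have h := hy.1
  rw [seg_self] at h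
  exact h

theorem el_seg {p b y : M} (hy : y ∈ EL p b) : seg p y = seg p b :=
  Subset.antisymm (seg_mono hy.1) (seg_mono hy.2)

theorem el_eq {p b y : M} (hy : y ∈ EL p b) : EL p y = EL p b := by
  have h := el_seg hy
  ext x
  constructor
  · rintro ⟨h1, h2⟩
    exact ⟨h ▸ h1, seg_mono h2 hy.2⟩
  · rintro ⟨h1, h2⟩
    exact ⟨h.symm ▸ h1, seg_mono h2 hy.1⟩

theorem LD.btw (h : LD M) {p a b c : M} (h1 : b ∈ seg p c) (h2 : b ∉ seg p a) :
    b ∈ seg a c := by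
  intro C hC ha hc
  rcases h1 (seg p a ∪ C) ((h.sc p a).union hC ⟨a, right_mem _ _, ha⟩) (Or.inl (left_mem _ _))
    (Or.inr hc) with h3 | h3
  · exact absurd h3 h2
  · exact h3

theorem LD.sub (h : LD M) {p a c : M} {C : Set M} (hC : Cont C) (ha : a ∈ C) (hc : c ∈ C) :
    seg p c ⊆ seg p a ∪ C :=
  seg_sub ((h.sc p a).union hC ⟨a, right_mem _ _, ha⟩) (Or.inl (left_mem _ _)) (Or.inr hc)

theorem cov (K Q : Set M) : K ⊆ Q ∪ closure (K \ Q) := by
  intro x hx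
  by_cases h : x ∈ Q
  · exact Or.inl h
  · exact Or.inr (subset_closure ⟨hx, h⟩)

/-- complements of initial pieces -/
theorem LD.clo (h : LD M) {p b : M} {Q : Set M} (hQ : Cont Q) (hp : p ∈ Q) (hQX : Q ⊆ seg p b)
    (hb : b ∉ Q) : Cont (closure (seg p b \ Q)) := by
  have hEK : closure (seg p b \ Q) ⊆ seg p b := closure_minimal sdiff_subset (isClosed_seg _ _)
  refine ⟨(h.sc p b).cpt.of_isClosed_subset isClosed_closure hEK, ?_⟩
  by_contra hEp
  rw [isPreconnected_closed_iff] at hEp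
  push Not at hEp
  obtain ⟨t, t', ht, ht', hsub, h1, h2, hemp⟩ := hEp
  have hemp' : ¬ (closure (seg p b \ Q) ∩ (t ∩ t')).Nonempty := by
    rw [hemp]
    exact Set.not_nonempty_empty
  have hbE : b ∈ closure (seg p b \ Q) := subset_closure ⟨right_mem _ _, hb⟩
  rcases hsub hbE with h3 | h3
  · obtain ⟨h4, h5⟩ := half_cont (h.sc p b) hQ hQX ⟨p, hp⟩ rfl hEK ht ht' hsub h2 hemp'
    exact h5 (seg_sub h4 (Or.inl hp) (Or.inr ⟨hbE, h3⟩))
  · obtain ⟨h4, h5⟩ := half_cont (h.sc p b) hQ hQX ⟨p, hp⟩ rfl hEK ht' ht (by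
      rw [union_comm t' t]
      exact hsub) h1 (by
      rw [inter_comm t' t]
      exact hemp')
    exact h5 (seg_sub h4 (Or.inl hp) (Or.inr ⟨hbE, h3⟩))

theorem hull_cont (hHU : HU M) {A : Set M} (hA : ∃ K : Set M, Cont K ∧ A ⊆ K) :
    Cont (⋂ C : {C : Set M // Cont C ∧ A ⊆ C}, C.1) := by
  obtain ⟨K, hK, hAK⟩ := hA
  have : Nonempty {C : Set M // Cont C ∧ A ⊆ C} := ⟨⟨K, hK, hAK⟩⟩
  refine ⟨?_, ?_⟩
  · refine hK.cpt.of_isClosed_subset (isClosed_iInter fun C => C.2.1.cpt.isClosed) ?_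
    exact iInter_subset (fun C : {C : Set M // Cont C ∧ A ⊆ C} => C.1) ⟨K, hK, hAK⟩
  · refine conn_dir _ ?_ (fun C => C.2.1.cpt) fun C => C.2.1.con
    rintro ⟨B, hB, hB1⟩ ⟨C, hC, hC1⟩
    exact ⟨⟨B ∩ C, ⟨hB.cpt.inter hC.cpt, hHU B C hB.cpt hB.con hC.cpt hC.con⟩,
      subset_inter hB1 hC1⟩, inter_subset_left, inter_subset_right⟩

/-- end layers are continua -/
theorem LD.el_cont (h : LD M) (p b : M) : Cont (EL p b) := by
  obtain ⟨S, hS⟩ : ∃ S, S = ⋂ C : {C : Set M // Cont C ∧ EL p b ⊆ C}, C.1 := ⟨_, rfl⟩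
  have hSc : Cont S := by
    rw [hS]
    exact hull_cont h.hu ⟨seg p b, h.sc p b, el_sub p b⟩
  have hTS : EL p b ⊆ S := by
    rw [hS]
    exact subset_iInter fun C => C.2.2
  have hSm : ∀ C, Cont C → EL p b ⊆ C → S ⊆ C := by
    intro C hC hT
    rw [hS]
    exact iInter_subset (fun C : {C : Set M // Cont C ∧ EL p b ⊆ C} => C.1) ⟨C, hC, hT⟩
  have hSX : S ⊆ seg p b := hSm _ (h.sc p b) (el_sub p b)
  have hST : S ⊆ EL p b := by
    intro z hz
    by_contra hzT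
    have hzX : z ∈ seg p b := hSX hz
    have hbQ : b ∉ seg p z := fun h1 => hzT ⟨hzX, h1⟩
    have key : ∀ Q, Cont Q → p ∈ Q → Q ⊆ seg p b → (Q ∩ S).Nonempty → (∀ y ∈ EL p b, y ∉ Q) →
        S ⊆ closure (seg p b \ Q) ∧ seg p b \ Q ⊆ S := by
      intro Q hQ hp hQX hne hmiss
      refine ⟨hSm _ (h.clo hQ hp hQX (hmiss b (mem_el p b))) fun y hy =>
        subset_closure ⟨hy.1, hmiss y hy⟩, ?_⟩
      rintro x ⟨hx, hxQ⟩
      rcases seg_sub (hQ.union hSc hne) (Or.inl hp) (Or.inr (hTS (mem_el p b))) hx with h1 | h1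
      · exact absurd h1 hxQ
      · exact h1
    have hmissz : ∀ y ∈ EL p b, y ∉ seg p z := fun y hy h1 => hbQ (seg_mono h1 hy.2)
    obtain ⟨k1, k2⟩ := key (seg p z) (h.sc p z) (left_mem _ _) (seg_mono hzX)
      ⟨z, right_mem _ _, hz⟩ hmissz
    have hzb : z ≠ b := by
      rintro rfl
      exact hbQ (right_mem _ _)
    obtain ⟨S₁, S₂, h1, h2, h3, h4, h5, h6, h7⟩ := h.hd S hSc z hz b (hTS (mem_el p b)) hzb
    have claim : ∀ S₁ S₂ : Set M, Cont S₁ → Cont S₂ → S₁ ⊆ S → ¬ S ⊆ S₁ → ¬ S ⊆ S₂ →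
        S ⊆ S₁ ∪ S₂ → z ∈ S₁ → False := by
      intro S₁ S₂ h1 h2 h3 h5 h6 h7 hz1
      have hU : Cont (seg p z ∪ S₁) := (h.sc p z).union h1 ⟨z, right_mem _ _, hz1⟩
      by_cases hm : ∀ y ∈ EL p b, y ∉ seg p z ∪ S₁
      · obtain ⟨k3, k4⟩ := key _ hU (Or.inl (left_mem _ _))
          (union_subset (seg_mono hzX) (h3.trans hSX)) ⟨z, Or.inl (right_mem _ _), hz⟩ hm
        refine h6 (k3.trans (closure_minimal ?_ h2.cpt.isClosed))
        rintro x ⟨hx, hxU⟩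
        rcases h7 (k4 ⟨hx, hxU⟩) with h8 | h8
        · exact absurd (Or.inr h8) hxU
        · exact h8
      · push Not at hm
        obtain ⟨y, hy, hyU⟩ := hm
        refine h5 (k1.trans (closure_minimal ?_ h1.cpt.isClosed))
        rintro x ⟨hx, hxz⟩
        have h8 : x ∈ seg p y := by
          rw [el_seg hy]
          exact hx
        rcases seg_sub hU (Or.inl (left_mem _ _)) hyU h8 with h9 | h9
        · exact absurd h9 hxz
        · exact h9
    rcases h7 hz with h8 | h8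
    · exact claim S₁ S₂ h1 h2 h3 h5 h6 h7 h8
    · exact claim S₂ S₁ h2 h1 h4 h6 h5 (by rw [union_comm]; exact h7) h8
  rw [← Subset.antisymm hST hTS]
  exact hSc

/-- end layers are nowhere dense -/
theorem LD.dense (h : LD M) {p b : M} (hpb : p ≠ b) : seg p b ⊆ closure (seg p b \ EL p b) := by
  have hp : p ∈ seg p b \ EL p b := by
    refine ⟨left_mem _ _, fun h1 => hpb ?_⟩
    have h2 := h1.2
    rw [seg_self] at h2
    exact h2.symm
  have hcon : IsPreconnected (seg p b \ EL p b) := by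
    refine isPreconnected_of_forall p fun y hy => ⟨seg p y, ?_, left_mem _ _, right_mem _ _,
      (h.sc p y).con⟩
    intro x hx
    refine ⟨seg_mono hy.1 hx, fun h1 => hy.2 ⟨hy.1, ?_⟩⟩
    exact seg_mono hx h1.2
  have hF : Cont (closure (seg p b \ EL p b)) :=
    ⟨(h.sc p b).cpt.of_isClosed_subset isClosed_closure
      (closure_minimal sdiff_subset (isClosed_seg _ _)), hcon.closure⟩
  refine seg_sub hF (subset_closure hp) ?_
  by_contra hb
  obtain ⟨t, -, ht1, ht2⟩ := isPreconnected_closed_iff.1 (h.sc p b).con (EL p b)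
    (closure (seg p b \ EL p b)) (h.el_cont p b).cpt.isClosed isClosed_closure (cov _ _)
    ⟨b, right_mem _ _, mem_el p b⟩ ⟨p, left_mem _ _, subset_closure hp⟩
  exact hb (seg_sub hF (subset_closure hp) ht2 ht1.2)

/-- continua which meet an end layer and the rest -/
theorem LD.fw (h : LD M) {p b w : M} (hw : w ∈ seg p b) (hbw : b ∉ seg p w) :
    ∃ w', w' ∈ seg p w ∧ EL w' b = EL p b ∧ w' ≠ b ∧ seg w' b ⊆ seg p b ∧
      ∀ C, Cont C → w ∈ C → (C ∩ EL p b).Nonempty → seg w' b ⊆ C := by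
  have hQX : seg p w ⊆ seg p b := seg_mono hw
  have hE : Cont (closure (seg p b \ seg p w)) := h.clo (h.sc p w) (left_mem _ _) hQX hbw
  have hEX : closure (seg p b \ seg p w) ⊆ seg p b :=
    closure_minimal sdiff_subset (isClosed_seg _ _)
  have hbE : b ∈ closure (seg p b \ seg p w) := subset_closure ⟨right_mem _ _, hbw⟩
  obtain ⟨w', -, hw1, hw2⟩ := isPreconnected_closed_iff.1 (h.sc p b).con (seg p w)
    (closure (seg p b \ seg p w)) (isClosed_seg _ _) isClosed_closure (cov _ _)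
    ⟨p, left_mem _ _, left_mem _ _⟩ ⟨b, right_mem _ _, hbE⟩
  have hsE : seg w' b ⊆ closure (seg p b \ seg p w) := seg_sub hE hw2 hbE
  have hbw' : b ∉ seg p w' := fun h1 => hbw (seg_mono hw1 h1)
  refine ⟨w', hw1, ?_, ?_, hsE.trans hEX, ?_⟩
  · ext y
    constructor
    · rintro ⟨h1, h2⟩
      refine ⟨hEX (hsE h1), ?_⟩
      by_contra h3
      rcases seg_sub ((h.sc p w).union (h.sc p y) ⟨p, left_mem _ _, left_mem _ _⟩) (Or.inl hw1)
        (Or.inr (right_mem _ _)) h2 with h4 | h4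
      · exact hbw h4
      · exact h3 h4
    · rintro ⟨h1, h2⟩
      refine ⟨?_, h.btw h2 hbw'⟩
      refine h.btw h1 fun h3 => hbw' ?_
      exact seg_mono h3 h2
  · rintro rfl
    exact hbw hw1
  · rintro C hC hwC ⟨t, htC, ht⟩
    refine hsE.trans (closure_minimal ?_ hC.cpt.isClosed)
    rintro x ⟨hx, hxw⟩
    have h1 : x ∈ seg p t := by
      rw [el_seg ht]
      exact hx
    rcases h.sub hC hwC htC h1 with h2 | h2
    · exact absurd h2 hxw
    · exact h2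

/-! ## Minimal continua -/

theorem exists_minc [CompactSpace M] {P : Set M → Prop} {K₀ : Set M} (h0 : Cont K₀ ∧ P K₀)
    (hne : ∀ K, P K → K.Nonempty)
    (hcl : ∀ K : ℕ → Set M, (∀ n, Cont (K n) ∧ P (K n)) → (∀ n, K (n + 1) ⊆ K n) →
      P (⋂ n, K n)) :
    ∃ K, Cont K ∧ P K ∧ K ⊆ K₀ ∧ ∀ K', Cont K' → P K' → K' ⊆ K → K ⊆ K' := by
  by_contra hcon
  obtain ⟨K, hK, hdec, -, -, hnP⟩ := brouwer (P := fun K => P K ∧ K ⊆ K₀)
    ⟨h0.1, h0.2, Subset.rfl⟩ (fun K hK => hne K hK.1) (by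
      intro K hK hPK
      by_contra hcon'
      refine hcon ⟨K, hK, hPK.1, hPK.2, fun K' hK' hPK' hsub => ?_⟩
      by_contra hns
      exact hcon' ⟨K', hK', ⟨hPK', hsub.trans hPK.2⟩, hsub, hns⟩)
  exact hnP ⟨hcl K (fun n => ⟨(hK n).1, (hK n).2.1⟩) hdec,
    (iInter_subset _ 0).trans (hK 0).2.2⟩

/-- a proper subcontinuum can be extended inside a continuum -/
theorem LD.ext [CompactSpace M] (h : LD M) {T C : Set M} (hT : Cont T) (hTn : T.Nonempty)
    (hC : Cont C) (hTC : T ⊆ C) (hCT : ¬ C ⊆ T) :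
    ∃ y W, Cont W ∧ y ∈ W ∧ y ∉ T ∧ T ⊆ W ∧ W ⊆ C ∧ ¬ C ⊆ W := by
  obtain ⟨c, hcC, hcT⟩ := not_subset.1 hCT
  obtain ⟨D, hD, hPD, hDC, hmin⟩ := exists_minc (P := fun D => C ⊆ D ∪ T) (K₀ := C)
    ⟨hC, subset_union_left⟩ (by
      intro D hD
      rcases hD hcC with h1 | h1
      · exact ⟨c, h1⟩
      · exact absurd h1 hcT) (by
      intro K hK _ x hx
      by_cases hxT : x ∈ T
      · exact Or.inr hxT
      · left
        rw [mem_iInter]
        intro n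
        rcases (hK n).2 hx with h1 | h1
        · exact h1
        · exact absurd h1 hxT)
  have hcD : c ∈ D := by
    rcases hPD hcC with h1 | h1
    · exact h1
    · exact absurd h1 hcT
  obtain ⟨d, -, hdD, hdT⟩ := isPreconnected_closed_iff.1 hC.con D T hD.cpt.isClosed
    hT.cpt.isClosed hPD ⟨c, hcC, hcD⟩ (by
      obtain ⟨t, ht⟩ := hTn
      exact ⟨t, hTC ht, ht⟩)
  have hcd : c ≠ d := by
    rintro rfl
    exact hcT hdT
  obtain ⟨D₁, D₂, h1, h2, h3, h4, h5, h6, h7⟩ := h.hd D hD c hcD d hdD hcd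
  have claim : ∀ D₁ D₂ : Set M, Cont D₁ → Cont D₂ → D₁ ⊆ D → D₂ ⊆ D → ¬ D ⊆ D₁ → ¬ D ⊆ D₂ →
      D ⊆ D₁ ∪ D₂ → d ∈ D₁ → ∃ y W, Cont W ∧ y ∈ W ∧ y ∉ T ∧ T ⊆ W ∧ W ⊆ C ∧ ¬ C ⊆ W := by
    intro D₁ D₂ h1 h2 h3 h4 h5 h6 h7 hd1
    by_cases hy : ∃ y ∈ D₁, y ∉ T
    · obtain ⟨y, hy1, hy2⟩ := hy
      refine ⟨y, D₁ ∪ T, h1.union hT ⟨d, hd1, hdT⟩, Or.inl hy1, hy2, subset_union_right,
        union_subset (h3.trans hDC) hTC, fun h8 => h5 (hmin D₁ h1 h8 h3)⟩
    · push Not at hy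
      exfalso
      refine h6 (hmin D₂ h2 ?_ h4)
      intro x hx
      rcases hPD hx with h8 | h8
      · rcases h7 h8 with h9 | h9
        · exact Or.inr (hy x h9)
        · exact Or.inl h9
      · exact Or.inr h8
  rcases h7 hdD with h8 | h8
  · exact claim D₁ D₂ h1 h2 h3 h4 h5 h6 h7 h8
  · exact claim D₂ D₁ h2 h1 h4 h3 h6 h5 (by rw [union_comm]; exact h7) h8

end Pool.FL57
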