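import Pool.Agent.Work.MP_36677d_fl.FL1
import Pool.Agent.Work.MP_36677d_gt_h94.Core3

/-! # Wild continua and parities (helper57) -/

set_option autoImplicit false

open Set Filter Topology

namespace Pool.FL57

open Pool.TL94 Pool.FA57

variable {M : Type} [MetricSpace M]

/-- discretised data of a fixed point free map, with closed conditions -/
structure Dx (H : M → ℝ → M) (v : M → ℝ → ℝ) (e δ : ℝ) (N : ℕ) : Prop where
  D : Dat H v e δ N
  cv : Continuous (fun q : M × ℝ => v q.1 q.2)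
  av : ∀ x x' x'' t t', dist x x' ≤ δ → dist x x'' ≤ δ → |t - t'| ≤ 1 / (N : ℝ) →
    t ∈ Icc (0:ℝ) 1 → t' ∈ Icc (0:ℝ) 1 → |v x t| ≤ e → H x' t' ≠ x''

theorem exists_dx [CompactSpace M] [Nonempty M] (G : C(M × unitInterval, M × unitInterval))
    (hG : ∀ q, G q ≠ q) : ∃ (v : M → ℝ → ℝ) (e δ : ℝ) (N : ℕ),
      Dx (fun x t => (G (x, projIcc 0 1 zero_le_one t)).1) v e δ N := by
  -- positive displacement
  have hcont : Continuous (fun q : M × unitInterval => dist (G q).1 q.1 + dist (G q).2 q.2) := by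
    fun_prop
  have hpos : ∀ q : M × unitInterval, 0 < dist (G q).1 q.1 + dist (G q).2 q.2 := by
    intro q
    by_contra h
    have h1 : dist (G q).1 q.1 = 0 := le_antisymm (by linarith [dist_nonneg (x := (G q).2) (y := q.2)])
      dist_nonneg
    have h2 : dist (G q).2 q.2 = 0 := le_antisymm (by linarith [dist_nonneg (x := (G q).1) (y := q.1)])
      dist_nonneg
    exact hG q (Prod.ext (dist_eq_zero.1 h1) (dist_eq_zero.1 h2))
  obtain ⟨η, hη, hηq⟩ : ∃ η > 0, ∀ q : M × unitInterval,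
      η ≤ dist (G q).1 q.1 + dist (G q).2 q.2 := by
    obtain ⟨q0, -, hq0⟩ := isCompact_univ.exists_isMinOn (univ_nonempty (α := M × unitInterval))
      hcont.continuousOn
    exact ⟨_, hpos q0, fun q => hq0 (mem_univ q)⟩
  obtain ⟨e, he, heη, he1⟩ : ∃ e : ℝ, 0 < e ∧ 6 * e ≤ η ∧ e ≤ 1 :=
    ⟨min (η / 6) 1, lt_min (by positivity) one_pos, by
      have := min_le_left (η / 6) 1; linarith, min_le_right _ _⟩
  have hU : UniformContinuous G := CompactSpace.uniformContinuous_of_continuous G.continuous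
  obtain ⟨ρ, hρ, hρ2⟩ := Metric.uniformContinuous_iff.1 hU (e / 4) (by positivity)
  obtain ⟨δ, hδ, hδρ, hδe⟩ : ∃ δ : ℝ, 0 < δ ∧ δ < ρ ∧ δ ≤ e / 4 :=
    ⟨min (ρ / 2) (e / 4), lt_min (by positivity) (by positivity), by
      have := min_le_left (ρ / 2) (e / 4); linarith, min_le_right _ _⟩
  obtain ⟨n, hn⟩ := exists_nat_one_div_lt hδ
  have hproj : ∀ t ∈ Icc (0:ℝ) 1, ((projIcc (0:ℝ) 1 zero_le_one t : unitInterval) : ℝ) = t := by
    intro t ht
    rw [projIcc_of_mem zero_le_one ht]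
  have hG2 : ∀ q : M × unitInterval, 0 ≤ ((G q).2 : ℝ) ∧ ((G q).2 : ℝ) ≤ 1 := fun q => (G q).2.2
  -- the basic estimate
  have hnear : ∀ (x x' : M) (t t' : ℝ), dist x x' ≤ δ → |t - t'| ≤ 1 / ((n + 1 : ℕ) : ℝ) →
      t ∈ Icc (0:ℝ) 1 → t' ∈ Icc (0:ℝ) 1 → |t - t'| ≤ δ ∧
      dist (G (x, projIcc 0 1 zero_le_one t)) (G (x', projIcc 0 1 zero_le_one t')) < e / 4 := by
    intro x x' t t' hx ht h0 h0'
    have h1 : |t - t'| ≤ δ := ht.trans (by push_cast; exact hn.le)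
    refine ⟨h1, hρ2 ?_⟩
    rw [Prod.dist_eq]
    refine max_lt (lt_of_le_of_lt hx hδρ) ?_
    rw [Subtype.dist_eq, Real.dist_eq, hproj t h0, hproj t' h0']
    exact lt_of_le_of_lt h1 hδρ
  have h1c : Continuous (fun t : ℝ => (projIcc (0:ℝ) 1 zero_le_one t : unitInterval)) :=
    continuous_projIcc
  have hGc : Continuous (fun q : M × ℝ => G (q.1, projIcc 0 1 zero_le_one q.2)) :=
    G.continuous.comp (continuous_fst.prodMk (h1c.comp continuous_snd))
  have hav : ∀ x x' x'' t t', dist x x' ≤ δ → dist x x'' ≤ δ → |t - t'| ≤ 1 / ((n + 1 : ℕ) : ℝ) →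
      t ∈ Icc (0:ℝ) 1 → t' ∈ Icc (0:ℝ) 1 →
      |((G (x, projIcc 0 1 zero_le_one t)).2 : ℝ) - (projIcc (0:ℝ) 1 zero_le_one t : ℝ) +
        e * (1 - 2 * (projIcc (0:ℝ) 1 zero_le_one t : ℝ))| ≤ e →
      (G (x', projIcc 0 1 zero_le_one t')).1 ≠ x'' := by
    intro x x' x'' t t' hx hx' ht h0 h0' hv heq
    obtain ⟨h1, h2⟩ := hnear x x' t t' hx ht h0 h0'
    rw [Prod.dist_eq] at h2
    have h3 := lt_of_le_of_lt (le_max_left _ _) h2
    rw [hproj t h0] at hv
    have h4 := hηq (x, projIcc 0 1 zero_le_one t)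
    rw [Subtype.dist_eq, Real.dist_eq] at h4
    simp only at h4 heq
    rw [hproj t h0] at h4
    have h5 : |((G (x, projIcc 0 1 zero_le_one t)).2 : ℝ) - t| ≤ 2 * e := by
      have h6 := abs_le.1 hv
      have h7 := h0.1
      have h8 := h0.2
      rw [abs_le]
      constructor <;> nlinarith
    have h6 : dist (G (x, projIcc 0 1 zero_le_one t)).1 x ≤
        dist (G (x, projIcc 0 1 zero_le_one t)).1 (G (x', projIcc 0 1 zero_le_one t')).1 +
        dist x x'' := by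
      have := dist_triangle (G (x, projIcc 0 1 zero_le_one t)).1
        (G (x', projIcc 0 1 zero_le_one t')).1 x
      rw [heq] at this ⊢
      rw [dist_comm x x'']
      exact this
    linarith
  refine ⟨fun x t => ((G (x, projIcc 0 1 zero_le_one t)).2 : ℝ) -
    (projIcc (0:ℝ) 1 zero_le_one t : ℝ) + e * (1 - 2 * (projIcc (0:ℝ) 1 zero_le_one t : ℝ)), e, δ,
    n + 1, ⟨?_, he, hδ, Nat.succ_pos n, ?_, ?_, ?_, ?_⟩, ?_, hav⟩
  · exact continuous_fst.comp hGc
  · intro x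
    have h1 := (hG2 (x, projIcc 0 1 zero_le_one 0)).1
    show e ≤ _ - _ + _
    rw [hproj 0 ⟨le_rfl, zero_le_one⟩]
    linarith
  · intro x
    have h1 := (hG2 (x, projIcc 0 1 zero_le_one 1)).2
    show _ - _ + _ ≤ -e
    rw [hproj 1 ⟨zero_le_one, le_rfl⟩]
    linarith
  · intro x x' t t' hx ht h0 h0'
    obtain ⟨h1, h2⟩ := hnear x x' t t' hx ht h0 h0'
    rw [Prod.dist_eq] at h2
    have h3 := lt_of_le_of_lt (le_max_right _ _) h2
    rw [Subtype.dist_eq, Real.dist_eq] at h3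
    show |_ - _ + _ - (_ - _ + _)| < e
    rw [hproj t h0, hproj t' h0']
    have h4 := abs_lt.1 h3
    have h5 := abs_le.1 h1
    rw [abs_lt]
    have h6 : |e * (t - t')| ≤ e / 4 := by
      rw [abs_mul, abs_of_pos he]
      calc e * |t - t'| ≤ 1 * (e / 4) := by
            apply mul_le_mul he1 (h1.trans hδe) (abs_nonneg _) zero_le_one
        _ = e / 4 := one_mul _
    have h7 := abs_le.1 h6
    constructor <;> nlinarith
  · intro x x' x'' t t' hx hx' ht h0 h0' hv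
    exact hav x x' x'' t t' hx hx' ht h0 h0' hv.le
  · have h2 : Continuous (fun q : M × ℝ => ((projIcc (0:ℝ) 1 zero_le_one q.2 : unitInterval) : ℝ)) :=
      continuous_subtype_val.comp (h1c.comp continuous_snd)
    have h3 : Continuous (fun q : M × ℝ => ((G (q.1, projIcc 0 1 zero_le_one q.2)).2 : ℝ)) :=
      continuous_subtype_val.comp (continuous_snd.comp hGc)
    exact (h3.sub h2).add (continuous_const.mul (continuous_const.sub (continuous_const.mul h2)))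

/-! ## Images -/

/-- the image of `C × [0, 1]` -/
def HH (H : M → ℝ → M) (C : Set M) : Set M := (fun q : M × ℝ => H q.1 q.2) '' (C ×ˢ Icc (0:ℝ) 1)

variable {H : M → ℝ → M} {v : M → ℝ → ℝ} {e δ : ℝ} {N : ℕ}

theorem mem_hh {C : Set M} {x : M} {t : ℝ} (hx : x ∈ C) (ht : t ∈ Icc (0:ℝ) 1) : H x t ∈ HH H C :=
  ⟨(x, t), ⟨hx, ht⟩, rfl⟩

theorem hh_mono {C C' : Set M} (h : C ⊆ C') : HH H C ⊆ HH H C' :=
  image_mono (prod_mono_left h)

theorem hh_cont (cH : Continuous (fun q : M × ℝ => H q.1 q.2)) {C : Set M} (hC : Cont C) :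
    Cont (HH H C) :=
  ⟨(hC.cpt.prod isCompact_Icc).image cH,
    (hC.con.prod isPreconnected_Icc).image _ cH.continuousOn⟩

/-- points in all images of a decreasing sequence -/
theorem dec_img (cH : Continuous (fun q : M × ℝ => H q.1 q.2)) {K : ℕ → Set M}
    (hK : ∀ n, IsCompact (K n)) (hdec : ∀ n, K (n + 1) ⊆ K n) {a b : ℝ} {B : ℕ → Set M}
    (hB : ∀ n, IsClosed (B n)) (hBd : ∀ n, B (n + 1) ⊆ B n)
    (h : ∀ n, ∃ z ∈ K n, ∃ t ∈ Icc a b, H z t ∈ B n) :
    ∃ z ∈ ⋂ n, K n, ∃ t ∈ Icc a b, H z t ∈ ⋂ n, B n := by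
  have hanti : Antitone K := antitone_nat_of_succ_le hdec
  have hantiB : Antitone B := antitone_nat_of_succ_le hBd
  have h1 : (⋂ n, (K n ×ˢ Icc a b) ∩ {q : M × ℝ | H q.1 q.2 ∈ B n}).Nonempty := by
    refine IsCompact.nonempty_iInter_of_directed_nonempty_isCompact_isClosed
      (fun n => (K n ×ˢ Icc a b) ∩ {q : M × ℝ | H q.1 q.2 ∈ B n}) ?_ ?_ ?_ ?_
    · intro n m
      refine ⟨max n m, ?_, ?_⟩
      · exact inter_subset_inter (prod_mono_left (hanti (le_max_left _ _)))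
          fun q hq => hantiB (le_max_left n m) hq
      · exact inter_subset_inter (prod_mono_left (hanti (le_max_right _ _)))
          fun q hq => hantiB (le_max_right n m) hq
    · intro n
      obtain ⟨z, hz, t, ht, hzt⟩ := h n
      exact ⟨(z, t), ⟨hz, ht⟩, hzt⟩
    · intro n
      exact ((hK n).prod isCompact_Icc).inter_right ((hB n).preimage cH)
    · intro n
      exact ((hK n).isClosed.prod isClosed_Icc).inter ((hB n).preimage cH)
  obtain ⟨q, hq⟩ := h1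
  rw [mem_iInter] at hq
  exact ⟨q.1, mem_iInter.2 fun n => (hq n).1.1, q.2, (hq 0).1.2,
    mem_iInter.2 fun n => (hq n).2⟩

/-! ## Wild continua -/

/-- the image of `W × [i / N, (i + 1) / N]` -/
def Di (H : M → ℝ → M) (N : ℕ) (W : Set M) (i : ℕ) : Set M :=
  (fun q : M × ℝ => H q.1 q.2) '' (W ×ˢ Icc ((i : ℝ) / (N : ℝ)) (((i + 1 : ℕ) : ℝ) / (N : ℝ)))

/-- the condition for one index -/
def Wi (H : M → ℝ → M) (v : M → ℝ → ℝ) (e : ℝ) (N : ℕ) (i : ℕ) (W : Set M) : Prop :=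
  (∃ y ∈ W, |v y ((i : ℝ) / (N : ℝ))| ≤ e) ∧
    ∃ z ∈ W, ∃ s ∈ Icc ((i : ℝ) / (N : ℝ)) (((i + 1 : ℕ) : ℝ) / (N : ℝ)), H z s ∈ W

/-- wild continua -/
def Wild (H : M → ℝ → M) (v : M → ℝ → ℝ) (e : ℝ) (N : ℕ) (W : Set M) : Prop :=
  ∃ i < N, Wi H v e N i W

theorem Wi.mono {i : ℕ} {W W' : Set M} (h : Wi H v e N i W) (hW : W ⊆ W') :
    Wi H v e N i W' := by
  obtain ⟨⟨y, hy, hv⟩, z, hz, s, hs, hH⟩ := h
  exact ⟨⟨y, hW hy, hv⟩, z, hW hz, s, hs, hW hH⟩

theorem Wild.mono {W W' : Set M} (h : Wild H v e N W) (hW : W ⊆ W') : Wild H v e N W' := by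
  obtain ⟨i, hi, h1⟩ := h
  exact ⟨i, hi, h1.mono hW⟩

theorem Wild.nonempty {W : Set M} (h : Wild H v e N W) : W.Nonempty := by
  obtain ⟨i, -, ⟨y, hy, -⟩, -⟩ := h
  exact ⟨y, hy⟩

theorem Wild.meets {W : Set M} (D : Dx H v e δ N) (h : Wild H v e N W) :
    ∃ w ∈ W, w ∈ HH H W := by
  obtain ⟨i, hi, -, z, hz, s, hs, hH⟩ := h
  have h1 := D.D.mem_t hi.le
  have h2 := D.D.mem_t (show i + 1 ≤ N from hi)
  exact ⟨_, hH, mem_hh hz ⟨h1.1.trans hs.1, hs.2.trans h2.2⟩⟩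

theorem wild_dec (D : Dx H v e δ N) {K : ℕ → Set M} (hK : ∀ n, IsCompact (K n))
    (hdec : ∀ n, K (n + 1) ⊆ K n) (h : ∀ n, Wild H v e N (K n)) : Wild H v e N (⋂ n, K n) := by
  have hanti : Antitone K := antitone_nat_of_succ_le hdec
  obtain ⟨i, hi, hall⟩ : ∃ i < N, ∀ n, Wi H v e N i (K n) := by
    by_contra hcon
    push Not at hcon
    have h1 : ∀ i, ∃ n, i < N → ¬ Wi H v e N i (K n) := by
      intro i
      by_cases hi : i < N
      · obtain ⟨n, hn⟩ := hcon i hi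
        exact ⟨n, fun _ => hn⟩
      · exact ⟨0, fun h2 => absurd h2 hi⟩
    choose n hn using h1
    obtain ⟨i, hi, h2⟩ := h ((Finset.range N).sup n)
    refine hn i hi (h2.mono (hanti ?_))
    exact Finset.le_sup (f := n) (Finset.mem_range.2 hi)
  refine ⟨i, hi, ?_, ?_⟩
  · have h1 : (⋂ n, K n ∩ {y : M | |v y ((i : ℝ) / (N : ℝ))| ≤ e}).Nonempty := by
      have hcl : IsClosed {y : M | |v y ((i : ℝ) / (N : ℝ))| ≤ e} := by
        have h2 : Continuous fun y : M => |v y ((i : ℝ) / (N : ℝ))| :=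
          (D.cv.comp (by fun_prop : Continuous fun y : M => (y, (i : ℝ) / (N : ℝ)))).abs
        exact isClosed_le h2 continuous_const
      refine IsCompact.nonempty_iInter_of_directed_nonempty_isCompact_isClosed
        (fun n => K n ∩ {y : M | |v y ((i : ℝ) / (N : ℝ))| ≤ e}) ?_ ?_ ?_ ?_
      · intro n m
        exact ⟨max n m, inter_subset_inter_left _ (hanti (le_max_left _ _)),
          inter_subset_inter_left _ (hanti (le_max_right _ _))⟩
      · intro n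
        obtain ⟨y, hy, hv⟩ := (hall n).1
        exact ⟨y, hy, hv⟩
      · exact fun n => (hK n).inter_right hcl
      · exact fun n => (hK n).isClosed.inter hcl
    obtain ⟨y, hy⟩ := h1
    rw [mem_iInter] at hy
    exact ⟨y, mem_iInter.2 fun n => (hy n).1, (hy 0).2⟩
  · exact dec_img D.D.cH hK hdec (fun n => (hK n).isClosed) hdec fun n => (hall n).2

theorem Wild.nontrivial (D : Dx H v e δ N) {W : Set M} (h : Wild H v e N W) :
    ∃ x ∈ W, ∃ y ∈ W, x ≠ y := by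
  by_contra hcon
  push Not at hcon
  obtain ⟨i, hi, ⟨y, hy, hv⟩, z, hz, s, hs, hH⟩ := h
  have h1 := D.D.mem_t hi.le
  have h2 := D.D.mem_t (show i + 1 ≤ N from hi)
  have h3 := D.D.step i
  refine D.av y z (H z s) _ s ?_ ?_ ?_ h1 ⟨h1.1.trans hs.1, hs.2.trans h2.2⟩ hv rfl
  · rw [hcon y hy z hz, dist_self]
    exact D.D.δ_pos.le
  · rw [hcon y hy _ hH, dist_self]
    exact D.D.δ_pos.le
  · refine le_trans ?_ h3
    rw [abs_sub_comm, abs_of_nonneg (by linarith [hs.1]), abs_sub_comm,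
      abs_of_nonneg (by linarith [hs.1, hs.2])]
    linarith [hs.2]

theorem not_wild_point (D : Dx H v e δ N) {W : Set M} {x : M} (hW : W ⊆ {x}) :
    ¬ Wild H v e N W := by
  intro h
  obtain ⟨a, ha, b, hb, hab⟩ := h.nontrivial D
  exact hab ((mem_singleton_iff.1 (hW ha)).trans (mem_singleton_iff.1 (hW hb)).symm)

/-! ## Parities on tame continua -/

/-- membership in `S` does not change along continua missing `W` -/
def SatW (W S : Set M) : Prop :=
  ∀ C : Set M, Cont C → Disjoint C W → ∀ u ∈ C, ∀ w ∈ C, (u ∈ S ↔ w ∈ S)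

theorem satW_bey {W : Set M} (p : M) {y : M} (hy : y ∈ W) : SatW W (Bey p y) :=
  fun _ hC hd _ hu _ hw => seg_iff hC hu hw fun h => Set.disjoint_left.1 hd h hy

/-- the points joined with `u` by a continuum missing `W` -/
def clW (W : Set M) (u : M) : Set M := {w | ∃ C : Set M, Cont C ∧ w ∈ C ∧ u ∈ C ∧ Disjoint C W}

theorem satW_cl (W : Set M) (u : M) : SatW W (clW W u) := by
  have key : ∀ C : Set M, Cont C → Disjoint C W → ∀ a ∈ C, ∀ b ∈ C, a ∈ clW W u → b ∈ clW W u := by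
    rintro C hC hd a ha b hb ⟨C', hC', h1, h2, h3⟩
    exact ⟨C ∪ C', hC.union hC' ⟨a, ha, h1⟩, Or.inl hb, Or.inr h2, hd.union_left h3⟩
  exact fun C hC hd a ha b hb => ⟨key C hC hd a ha b hb, key C hC hd b hb a ha⟩

theorem par_congr {e : ℝ} {v : ℕ → ℝ} {b b' : ℕ → Prop} {N : ℕ}
    (h : ∀ i ≤ N, |v i| < e → (b i ↔ b' i)) : par e v b N = par e v b' N := by
  have key : ∀ i ≤ N, lab e (v i) (b i) = lab e (v i) (b' i) := by
    intro i hi
    unfold lab
    by_cases h1 : e ≤ v i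
    · rw [if_pos h1, if_pos h1]
    · rw [if_neg h1, if_neg h1]
      by_cases h2 : v i ≤ -e
      · rw [if_pos h2, if_pos h2]
      · rw [if_neg h2, if_neg h2]
        have h3 := h i hi (abs_lt.2 ⟨not_le.1 h2, not_le.1 h1⟩)
        by_cases h4 : b i
        · rw [if_pos h4, if_pos (h3.1 h4)]
        · rw [if_neg h4, if_neg fun h5 => h4 (h3.2 h5)]
  unfold par
  refine Finset.sum_congr rfl fun i hi => ?_
  rw [Finset.mem_range] at hi
  rw [key i hi.le, key (i + 1) hi]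

theorem pa_congr (D : Dx H v e δ N) {z : M} {S S' : Set M}
    (h : ∀ i < N, |v z ((i : ℝ) / (N : ℝ))| < e →
      (H z ((i : ℝ) / (N : ℝ)) ∈ S ↔ H z ((i : ℝ) / (N : ℝ)) ∈ S')) :
    pa H v e N z S = pa H v e N z S' := by
  refine par_congr fun i hi hv => ?_
  rcases hi.lt_or_eq with h1 | h1
  · exact h i h1 hv
  · exfalso
    rw [h1] at hv
    have h2 := D.D.tN z
    have h3 := (abs_lt.1 hv).1
    linarith

theorem pa_univ (D : Dx H v e δ N) (z : M) : pa H v e N z univ = 1 :=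
  par_one D.D.e_pos (D.D.t0 z) (D.D.tN z) (fun _ hi => D.D.vstep z hi) fun _ => mem_univ _

theorem pa_one (D : Dx H v e δ N) {z : M} {S : Set M}
    (h : ∀ i < N, |v z ((i : ℝ) / (N : ℝ))| < e → H z ((i : ℝ) / (N : ℝ)) ∈ S) :
    pa H v e N z S = 1 := by
  rw [pa_congr D (S' := univ) fun i hi hv => ⟨fun _ => mem_univ _, fun _ => h i hi hv⟩]
  exact pa_univ D z

theorem pa_mem (D : Dx H v e δ N) {z : M} {S : Set M} (h : pa H v e N z S = 1) :
    ∃ i < N, |v z ((i : ℝ) / (N : ℝ))| < e ∧ H z ((i : ℝ) / (N : ℝ)) ∈ S := by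
  by_contra hcon
  push Not at hcon
  rw [pa_congr D (S' := ∅) fun i hi hv => ⟨fun h1 => absurd h1 (hcon i hi hv),
    fun h1 => absurd h1 (notMem_empty _)⟩] at h
  have h2 : pa H v e N z ∅ = 0 := by
    unfold pa
    rw [par_eq_sum]
    refine Finset.sum_eq_zero fun j _ => ?_
    rw [if_neg]
    exact notMem_empty _
  rw [h2] at h
  exact absurd h (by decide)

theorem di_mem {W : Set M} {i : ℕ} {z : M} (hz : z ∈ W) (hN : 0 < N) :
    H z ((i : ℝ) / (N : ℝ)) ∈ Di H N W i ∧ H z (((i + 1 : ℕ) : ℝ) / (N : ℝ)) ∈ Di H N W i := by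
  have h0 : (0 : ℝ) < N := by exact_mod_cast hN
  have hle : (i : ℝ) / (N : ℝ) ≤ ((i + 1 : ℕ) : ℝ) / (N : ℝ) := by
    apply div_le_div_of_nonneg_right _ h0.le
    push_cast; linarith
  exact ⟨⟨(z, _), ⟨hz, le_rfl, hle⟩, rfl⟩, ⟨(z, _), ⟨hz, hle, le_rfl⟩, rfl⟩⟩

theorem di_cont (D : Dx H v e δ N) {W : Set M} (hW : Cont W) (i : ℕ) : Cont (Di H N W i) :=
  ⟨(hW.cpt.prod isCompact_Icc).image D.D.cH,
    (hW.con.prod isPreconnected_Icc).image _ D.D.cH.continuousOn⟩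

theorem di_disj {W : Set M} (hW : ¬ Wild H v e N W) {i : ℕ} (hi : i < N) {y : M} (hy : y ∈ W)
    (hv : |v y ((i : ℝ) / (N : ℝ))| ≤ e) : Disjoint (Di H N W i) W := by
  rw [Set.disjoint_left]
  rintro _ ⟨⟨z, s⟩, ⟨hz, hs⟩, rfl⟩ hH
  exact hW ⟨i, hi, ⟨y, hy, hv⟩, z, hz, s, hs, hH⟩

/-- parities are constant on tame continua -/
theorem pa_const (D : Dx H v e δ N) {W S : Set M} (hW : Cont W) (hnw : ¬ Wild H v e N W)
    (hS : SatW W S) {z z' : M} (hz : z ∈ W) (hz' : z' ∈ W) :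
    pa H v e N z S = pa H v e N z' S := by
  have hdi : ∀ i < N, ∀ y ∈ W, |v y ((i : ℝ) / (N : ℝ))| < e → ∀ a ∈ Di H N W i,
      ∀ b ∈ Di H N W i, (a ∈ S ↔ b ∈ S) := fun i hi y hy hv =>
    hS _ (di_cont D hW i) (di_disj hnw hi hy hv.le)
  have hloc : ∀ z ∈ W, ∀ z' ∈ W, dist z z' ≤ δ → pa H v e N z S = pa H v e N z' S := by
    intro z hz z' hz' hd
    refine par_eq D.D.e_pos (D.D.t0 z) (D.D.t0 z') (D.D.tN z) (D.D.tN z')
      (fun i hi => D.D.vstep z hi) (fun i hi => D.D.vstep z' hi) ?_ ?_ ?_ ?_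
    · intro i hi
      exact D.D.vv z z' _ _ hd (by rw [sub_self, abs_zero]; exact D.D.inv_nonneg) (D.D.mem_t hi)
        (D.D.mem_t hi)
    · intro i hi hv _
      have h1 := di_mem (H := H) (i := i) hz D.D.N_pos
      exact hdi i hi z hz hv _ h1.1 _ h1.2
    · intro i hi hv _
      have h1 := di_mem (H := H) (i := i) hz' D.D.N_pos
      exact hdi i hi z' hz' hv _ h1.1 _ h1.2
    · intro i hi hv _
      rcases hi.lt_or_eq with h1 | h1
      · exact hdi i h1 z hz hv _ (di_mem (H := H) (i := i) hz D.D.N_pos).1 _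
          (di_mem (H := H) (i := i) hz' D.D.N_pos).1
      · exfalso
        rw [h1] at hv
        have h2 := D.D.tN z
        have h3 := (abs_lt.1 hv).1
        linarith
  have hc : ContinuousOn (fun y => decide (pa H v e N y S = pa H v e N z S)) W := by
    intro y hy
    refine (continuousWithinAt_const (b := decide (pa H v e N y S = pa H v e N z S))).congr_of_eventuallyEq
      ?_ rfl
    filter_upwards [self_mem_nhdsWithin,
      mem_nhdsWithin_of_mem_nhds (Metric.ball_mem_nhds y D.D.δ_pos)] with y' h1 h2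
    rw [hloc y hy y' h1 (by rw [dist_comm]; exact (Metric.mem_ball.1 h2).le)]
  have h1 := hW.con.constant hc hz hz'
  simp only [decide_true] at h1
  exact (of_decide_eq_true h1.symm).symm

/-- an odd class -/
theorem odd_class (D : Dx H v e δ N) {W B : Set M} (hnw : ¬ Wild H v e N W) (hB : SatW W B)
    {x : M} (hx : x ∈ W) (h1 : pa H v e N x B = 1) :
    ∃ j < N, |v x ((j : ℝ) / (N : ℝ))| < e ∧ H x ((j : ℝ) / (N : ℝ)) ∈ B ∧
      pa H v e N x (clW W (H x ((j : ℝ) / (N : ℝ)))) = 1 := by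
  have hlt : ∀ i ≤ N, |v x ((i : ℝ) / (N : ℝ))| < e → i < N := by
    intro i hi hv
    rcases hi.lt_or_eq with h1 | h1
    · exact h1
    · exfalso
      rw [h1] at hv
      have h2 := D.D.tN x
      have h3 := (abs_lt.1 hv).1
      linarith
  obtain ⟨j, hj, hv, hjB, hpar⟩ := exists_class (fun i : ℕ => H x ((i : ℝ) / (N : ℝ))) B
    (clW W) (e := e) (v := fun i : ℕ => v x ((i : ℝ) / (N : ℝ))) (N := N) (by
      intro i hi hv
      refine ⟨{H x ((i : ℝ) / (N : ℝ))}, cont_singleton _, rfl, rfl, ?_⟩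
      rw [Set.disjoint_left]
      intro y hy hyW
      rw [mem_singleton_iff.1 hy] at hyW
      exact Set.disjoint_left.1 (di_disj hnw (hlt i hi hv) hx hv.le)
        (di_mem (H := H) (i := i) hx D.D.N_pos).1 hyW) (by
      rintro i hi k hk hvi hvk ⟨C, hC, h2, h3, h4⟩
      ext w
      constructor
      · rintro ⟨C', hC', h5, h6, h7⟩
        exact ⟨C' ∪ C, hC'.union hC ⟨_, h6, h2⟩, Or.inl h5, Or.inr h3, h7.union_left h4⟩
      · rintro ⟨C', hC', h5, h6, h7⟩
        exact ⟨C' ∪ C, hC'.union hC ⟨_, h6, h3⟩, Or.inl h5, Or.inr h2, h7.union_left h4⟩) (by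
      rintro i hi k hk hvi hvk ⟨C, hC, h2, h3, h4⟩
      exact hB C hC h4 _ h2 _ h3) h1
  exact ⟨j, hlt j hj hv, hv, hjB, hpar⟩

end Pool.FL57
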