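import Pool.Agent.Work.MP_36677d_fl.FL2

/-! # Limits of admissible points, maximal admissible points (helper57) -/

set_option autoImplicit false

open Set Filter Topology

namespace Pool.FL57

open Pool.TL94 Pool.FA57

variable {M : Type} [MetricSpace M]

/-- strictly increasing sequences, seen from `p` -/
structure St (p : M) (z : ℕ → M) : Prop where
  up : ∀ n, z n ∈ seg p (z (n + 1))
  ns : ∀ n, z (n + 1) ∉ seg p (z n)

theorem up_mono {p : M} {z : ℕ → M} (h : ∀ n, z n ∈ seg p (z (n + 1))) {n m : ℕ} (hnm : n ≤ m) :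
    z n ∈ seg p (z m) := by
  induction m, hnm using Nat.le_induction with
  | base => exact right_mem _ _
  | succ m _ ih => exact seg_trans ih (h m)

variable {p : M} {z : ℕ → M}

theorem St.nlt (hz : St p z) {n m : ℕ} (hnm : n < m) : z m ∉ seg p (z n) :=
  fun h1 => hz.ns n (seg_trans (up_mono hz.up (show n + 1 ≤ m from hnm)) h1)

theorem St.btw (h : LD M) (hz : St p z) {a b c : ℕ} (hab : a ≤ b) (hbc : b ≤ c) :
    z b ∈ seg (z a) (z c) := by
  rcases hab.lt_or_eq with h1 | h1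
  · exact h.btw (up_mono hz.up hbc) (hz.nlt h1)
  · rw [h1]
    exact left_mem _ _

variable [CompactSpace M]

theorem LD.tl (h : LD M) (z : ℕ → M) (n : ℕ) : Cont (Tl z n) := by
  refine ⟨isClosed_closure.isCompact, IsPreconnected.closure ?_⟩
  refine isPreconnected_iUnion ⟨z n, ?_⟩ (fun m => (h.sc _ _).con)
  rw [mem_iInter]
  exact fun m => left_mem _ _

theorem LD.tl_anti (h : LD M) (z : ℕ → M) {n m : ℕ} (hnm : n ≤ m) : Tl z m ⊆ Tl z n :=
  tl_sub (h.tl z n) fun _ hk => mem_tl (hnm.trans hk)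

theorem LD.lm_nonempty (h : LD M) (z : ℕ → M) : (Lm z).Nonempty := by
  refine IsCompact.nonempty_iInter_of_directed_nonempty_isCompact_isClosed (fun n => Tl z n)
    ?_ (fun n => ⟨z n, mem_tl le_rfl⟩) (fun n => (h.tl z n).cpt) (fun n => isClosed_closure)
  intro n m
  exact ⟨max n m, h.tl_anti z (le_max_left _ _), h.tl_anti z (le_max_right _ _)⟩

theorem lm_in {y : M} (hy : y ∈ Lm z) (n : ℕ) : y ∈ Tl z n := mem_iInter.1 hy n

theorem St.tail (h : LD M) (hz : St p z) {Q : Set M} (hQ : Cont Q) (hf : ¬ Ev z Q) :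
    ∃ l, Tl z l ⊆ Q := by
  have hf' : ∀ l₀, ∃ l, l₀ ≤ l ∧ z l ∈ Q := by
    intro l₀
    by_contra hcon
    push Not at hcon
    exact hf ⟨l₀, hcon⟩
  obtain ⟨l₁, -, h1⟩ := hf' 0
  refine ⟨l₁, tl_sub hQ fun k hk => ?_⟩
  obtain ⟨l', hl', h2⟩ := hf' k
  exact seg_sub hQ h1 h2 (hz.btw h hk hl')

/-- the points of the sequence are before all points of the limit set -/
theorem St.key (h : LD M) (hz : St p z) {y : M} (hy : y ∈ Lm z) (k : ℕ) : z k ∈ seg p y := by
  by_contra hk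
  have h1 : ∀ j, k ≤ j → z j ∉ seg p y := fun j hj h2 => hk (seg_trans (up_mono hz.up hj) h2)
  have h2 : ∀ m, Tl z k ⊆ Tl z m := by
    intro m
    refine tl_sub (h.tl z m) fun j hj => ?_
    rcases le_total m j with hmj | hjm
    · exact mem_tl hmj
    · rcases h.sub (h.tl z m) (lm_in hy m) (mem_tl le_rfl) (up_mono hz.up hjm) with h3 | h3
      · exact absurd h3 (h1 j hj)
      · exact h3
  have hne : z k ≠ z (k + 1) := by
    intro h3
    apply hz.ns k
    rw [← h3]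
    exact right_mem _ _
  obtain ⟨A, B, hA, hB, hAT, hBT, hnA, hnB, hAB⟩ := h.hd (Tl z k) (h.tl z k) (z k) (mem_tl le_rfl)
    (z (k + 1)) (mem_tl (Nat.le_succ k)) hne
  have hE : ∀ C : Set M, Cont C → ¬ Tl z k ⊆ C → Ev z C := by
    intro C hC hn
    by_contra h3
    obtain ⟨l, hl⟩ := hz.tail h hC h3
    exact hn ((h2 l).trans hl)
  obtain ⟨a, ha⟩ := (hE A hA hnA).union (hE B hB hnB)
  exact ha (max a k) (le_max_left _ _) (hAB (mem_tl (le_max_right _ _)))

/-- the limit set is an end layer -/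
theorem St.el (h : LD M) (hz : St p z) {y : M} (hy : y ∈ Lm z) : EL p y = Lm z := by
  have hsub : ∀ y ∈ Lm z, Lm z ⊆ seg p y := fun y hy =>
    (lm_sub 0).trans (tl_sub (h.sc p y) fun k _ => hz.key h hy k)
  ext x
  constructor
  · rintro ⟨h1, h2⟩
    rw [Lm, mem_iInter]
    intro k
    rcases h.sub (h.tl z k) (mem_tl le_rfl) (lm_in hy k) h1 with h3 | h3
    · exfalso
      have h4 : y ∈ seg p (z k) := seg_mono h3 h2
      exact hz.ns k (seg_mono h4 (hz.key h hy (k + 1)))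
    · exact h3
  · intro hx
    exact ⟨hsub y hy hx, hsub x hx hy⟩

theorem St.el_tl (h : LD M) (hz : St p z) {n k : ℕ} (hnk : n < k) : EL p (z k) ⊆ Tl z n := by
  rintro x ⟨h1, h2⟩
  rcases h.sub (h.tl z n) (mem_tl le_rfl) (mem_tl hnk.le) h1 with h3 | h3
  · exact absurd (seg_mono h3 h2) (hz.nlt hnk)
  · exact h3

variable {H : M → ℝ → M} {v : M → ℝ → ℝ} {e δ : ℝ} {N : ℕ}

/-- admissible points, seen from `p` -/
def Adm (H : M → ℝ → M) (v : M → ℝ → ℝ) (e : ℝ) (N : ℕ) (p x : M) : Prop :=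
  pa H v e N x (Bey p x) = 1 ∨ Wild H v e N (EL p x)

theorem adm_lim (h : LD M) (D : Dx H v e δ N) (hz : St p z) (hA : ∀ n, Adm H v e N p (z n))
    {y : M} (hy : y ∈ Lm z) : Adm H v e N p y := by
  by_cases hw : Wild H v e N (EL p y)
  · exact Or.inr hw
  left
  rw [hz.el h hy] at hw
  obtain ⟨n₀, hn₀⟩ : ∃ n₀, ¬ Wild H v e N (Tl z n₀) := by
    by_contra hcon
    push Not at hcon
    exact hw (wild_dec D (fun n => (h.tl z n).cpt) (fun n => h.tl_anti z (Nat.le_succ n)) hcon)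
  have h1 : ∀ k, n₀ < k → pa H v e N y (Bey p (z k)) = 1 := by
    intro k hk
    rw [← pa_const D (h.tl z n₀) hn₀ (satW_bey p (mem_tl hk.le)) (mem_tl hk.le) (lm_in hy n₀)]
    rcases hA k with h2 | h2
    · exact h2
    · exact absurd (h2.mono (hz.el_tl h hk)) hn₀
  have h2 : ∀ i : ℕ, ∃ k, H y ((i : ℝ) / (N : ℝ)) ∉ Bey p y →
      ∀ m, k ≤ m → H y ((i : ℝ) / (N : ℝ)) ∉ Bey p (z m) := by
    intro i
    by_cases hi : H y ((i : ℝ) / (N : ℝ)) ∈ Bey p y
    · exact ⟨0, fun h3 => absurd hi h3⟩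
    · obtain ⟨k, hk⟩ : ∃ k, z k ∉ seg p (H y ((i : ℝ) / (N : ℝ))) := by
        by_contra hcon
        push Not at hcon
        exact hi (tl_sub (h.sc p _) (fun k _ => hcon k) (lm_in hy 0))
      exact ⟨k, fun _ m hm h3 => hk (seg_trans (up_mono hz.up hm) h3)⟩
  choose k hk using h2
  obtain ⟨m, hm⟩ : ∃ m, m = (Finset.range N).sup k + n₀ + 1 := ⟨_, rfl⟩
  rw [← h1 m (by omega)]
  refine pa_congr D fun i hi _ => ⟨fun h3 => ?_, fun h3 => ?_⟩
  · exact seg_trans (hz.key h hy m) h3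
  · by_contra h4
    refine hk i h4 m ?_ h3
    have h5 : k i ≤ (Finset.range N).sup k := Finset.le_sup (f := k) (Finset.mem_range.2 hi)
    omega

/-- the greedy construction of a maximal point -/
theorem exists_max_of_sup {Q : M → Prop} (hQp : Q p)
    (hsup : ∀ z : ℕ → M, (∀ n, Q (z n)) → (∀ n, z n ∈ seg p (z (n + 1))) →
      ∃ z', Q z' ∧ ∀ n, z n ∈ seg p z') :
    ∃ x, Q x ∧ ∀ x', Q x' → x ∈ seg p x' → x' ∈ seg p x := by
  obtain ⟨U, -, hUb⟩ := exists_basis_seq (M := M)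
  classical
  let f : ℕ → {z // Q z} := fun n => Nat.rec ⟨p, hQp⟩ (fun n z =>
    if h : ∃ z' : {z // Q z}, z.1 ∈ seg p z'.1 ∧ (seg p z'.1 ∩ U n).Nonempty then h.choose else z) n
  have hf : ∀ n, f (n + 1) = if h : ∃ z' : {z // Q z}, (f n).1 ∈ seg p z'.1 ∧
      (seg p z'.1 ∩ U n).Nonempty then h.choose else f n := fun _ => rfl
  have hf1 : ∀ n, (f n).1 ∈ seg p (f (n + 1)).1 := by
    intro n
    rw [hf]
    split_ifs with h
    · exact h.choose_spec.1
    · exact right_mem _ _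
  obtain ⟨z1, hz1, hz1'⟩ := hsup (fun n => (f n).1) (fun n => (f n).2) hf1
  refine ⟨z1, hz1, fun z2 hz2 hz12 => ?_⟩
  by_contra hz21
  obtain ⟨n, hn1, hn2⟩ := hUb z2 (seg p z1)ᶜ (isClosed_seg p z1).isOpen_compl hz21
  have h : ∃ z' : {z // Q z}, (f n).1 ∈ seg p z'.1 ∧ (seg p z'.1 ∩ U n).Nonempty :=
    ⟨⟨z2, hz2⟩, seg_trans (hz1' n) hz12, z2, right_mem p z2, hn1⟩
  have h2 : (seg p (f (n + 1)).1 ∩ U n).Nonempty := by
    rw [hf, dif_pos h]
    exact h.choose_spec.2
  obtain ⟨x, hx1, hx2⟩ := h2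
  exact hn2 hx2 (seg_mono (hz1' (n + 1)) hx1)

/-- maximal admissible points in a continuum -/
theorem exists_maxadm (h : LD M) (D : Dx H v e δ N) {T : Set M} (hT : Cont T) (hp : p ∈ T) :
    ∃ x ∈ T, Adm H v e N p x ∧ ∀ x' ∈ T, Adm H v e N p x' → x ∈ seg p x' → x' ∈ seg p x := by
  obtain ⟨x, hx, hmax⟩ := exists_max_of_sup (p := p) (Q := fun x => x ∈ T ∧ Adm H v e N p x)
    ⟨hp, Or.inl (D.D.base p)⟩ (by
      intro z hz hup
      by_cases hc : ∃ n₀, ∀ n, n₀ ≤ n → z n ∈ seg p (z n₀)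
      · obtain ⟨n₀, hn₀⟩ := hc
        refine ⟨z n₀, hz n₀, fun n => ?_⟩
        rcases le_total n n₀ with h1 | h1
        · exact up_mono hup h1
        · exact hn₀ n h1
      · push Not at hc
        choose g hg1 hg2 using hc
        obtain ⟨φ, hφ0, hφ⟩ : ∃ φ : ℕ → ℕ, φ 0 = 0 ∧ ∀ n, φ (n + 1) = g (φ n) :=
          ⟨fun n => Nat.rec 0 (fun _ k => g k) n, rfl, fun _ => rfl⟩
        have hst : St p (fun n => z (φ n)) := by
          refine ⟨fun n => ?_, fun n => ?_⟩
          · show z (φ n) ∈ seg p (z (φ (n + 1)))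
            rw [hφ]
            exact up_mono hup (hg1 _)
          · show z (φ (n + 1)) ∉ seg p (z (φ n))
            rw [hφ]
            exact hg2 _
        have hlt : ∀ n, n ≤ φ n := by
          intro n
          induction n with
          | zero => exact Nat.zero_le _
          | succ n ih =>
            rw [hφ]
            have h1 : φ n ≠ g (φ n) := by
              intro h1
              apply hg2 (φ n)
              rw [← h1]
              exact right_mem _ _
            have h2 := hg1 (φ n)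
            omega
        obtain ⟨y, hy⟩ := h.lm_nonempty (fun n => z (φ n))
        refine ⟨y, ⟨?_, adm_lim h D hst (fun n => (hz _).2) hy⟩, fun n => ?_⟩
        · exact tl_sub hT (fun k _ => (hz _).1) (lm_in hy 0)
        · exact seg_trans (up_mono hup (hlt n)) (hst.key h hy n))
  exact ⟨x, hx.1, hx.2, fun x' h1 h2 => hmax x' ⟨h1, h2⟩⟩

end Pool.FL57
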