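import Pool.Agent.Work.MP_36677d_fl.FL3

/-! # Lifting of end layers (helper57) -/

set_option autoImplicit false

open Set Filter Topology

namespace Pool.FL57

open Pool.TL94 Pool.FA57

variable {M : Type} [MetricSpace M] [CompactSpace M]

/-- decreasing continua meeting a closed set -/
theorem meets_dec {K : ℕ → Set M} (hK : ∀ n, IsCompact (K n)) (hdec : ∀ n, K (n + 1) ⊆ K n)
    {Z : Set M} (hZ : IsClosed Z) (h : ∀ n, (K n ∩ Z).Nonempty) : ((⋂ n, K n) ∩ Z).Nonempty := by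
  have hanti : Antitone K := antitone_nat_of_succ_le hdec
  have h1 : (⋂ n, K n ∩ Z).Nonempty := by
    refine IsCompact.nonempty_iInter_of_directed_nonempty_isCompact_isClosed
      (fun n => K n ∩ Z) ?_ h (fun n => (hK n).inter_right hZ) (fun n => (hK n).isClosed.inter hZ)
    intro n m
    exact ⟨max n m, inter_subset_inter_left _ (hanti (le_max_left _ _)),
      inter_subset_inter_left _ (hanti (le_max_right _ _))⟩
  obtain ⟨y, hy⟩ := h1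
  rw [mem_iInter] at hy
  exact ⟨y, mem_iInter.2 fun n => (hy n).1, (hy 0).2⟩

/-- a small continuum at the end of a segment with trivial end layer -/
theorem LD.small (h : LD M) {s₀ s : M} (hel : ∀ x ∈ EL s₀ s, x = s) {ρ : ℝ} (hρ : 0 < ρ) :
    ∃ W Q : Set M, Cont W ∧ W ⊆ Metric.ball s ρ ∧ IsCompact Q ∧ Q ⊆ seg s₀ s ∧ s ∉ Q ∧
      seg s₀ s ⊆ Q ∪ W := by
  by_cases hall : seg s₀ s ⊆ Metric.ball s ρ
  · exact ⟨seg s₀ s, ∅, h.sc _ _, hall, isCompact_empty, empty_subset _, notMem_empty _,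
      subset_union_right⟩
  obtain ⟨c, hc, hcb⟩ := not_subset.1 hall
  have hZ : IsClosed (Metric.ball s ρ)ᶜ := Metric.isOpen_ball.isClosed_compl
  obtain ⟨C, hC, ⟨hsC, hCZ⟩, hCS, hmin⟩ := exists_minc
    (P := fun C => s ∈ C ∧ (C ∩ (Metric.ball s ρ)ᶜ).Nonempty) (K₀ := seg s₀ s)
    ⟨h.sc _ _, right_mem _ _, c, hc, hcb⟩ (fun K hK => ⟨s, hK.1⟩) (by
      intro K hK hdec
      exact ⟨mem_iInter.2 fun n => (hK n).2.1,
        meets_dec (fun n => (hK n).1.cpt) hdec hZ fun n => (hK n).2.2⟩)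
  obtain ⟨y, W, hW, hyW, hys, hsW, hWC, hCW⟩ := h.ext (cont_singleton s) ⟨s, rfl⟩ hC
    (singleton_subset_iff.2 hsC) (by
      intro h1
      obtain ⟨w, hw, hwZ⟩ := hCZ
      rw [mem_singleton_iff.1 (h1 hw)] at hwZ
      exact hwZ (Metric.mem_ball_self hρ))
  have hsW' : s ∈ W := hsW rfl
  refine ⟨W, seg s₀ y, hW, ?_, (h.sc _ _).cpt, seg_mono (hCS (hWC hyW)), ?_,
    h.sub hW hyW hsW'⟩
  · intro w hw
    by_contra hwb
    exact hCW (hmin W hW ⟨hsW', w, hw, hwb⟩ hWC)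
  · intro h1
    exact hys (hel y ⟨hCS (hWC hyW), h1⟩)

variable {H : M → ℝ → M}

/-- lifting of end layers -/
theorem LD.lift (h : LD M) (cH : Continuous (fun q : M × ℝ => H q.1 q.2)) {C : Set M}
    (hC : Cont C) {q b : M} (hX : seg q b ⊆ HH H C) (hnt : ∃ x ∈ EL q b, x ≠ b) :
    ∃ s₀ s, seg s₀ s ⊆ C ∧ (∃ x ∈ EL s₀ s, x ≠ s) ∧ EL q b ⊆ HH H (EL s₀ s) := by
  classical
  obtain ⟨S, hS, hXS, hSC, hmin⟩ := exists_minc (P := fun S => seg q b ⊆ HH H S) (K₀ := C)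
    ⟨hC, hX⟩ (by
      intro K hK
      obtain ⟨⟨z, t⟩, ⟨hz, -⟩, -⟩ := hK (left_mem q b)
      exact ⟨z, hz⟩) (by
      intro K hK hdec x hx
      obtain ⟨z, hz, t, ht, hzt⟩ := dec_img cH (fun n => (hK n).1.cpt) hdec (a := 0) (b := 1)
        (B := fun _ => {x}) (fun _ => isClosed_singleton) (fun _ => Subset.rfl) (by
          intro n
          obtain ⟨⟨z, t⟩, ⟨hz, ht⟩, hzt⟩ := (hK n).2 hx
          exact ⟨z, hz, t, ht, hzt⟩)
      rw [mem_iInter] at hzt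
      rw [← mem_singleton_iff.1 (hzt 0)]
      exact mem_hh hz ht)
  obtain ⟨⟨s₀, t₀⟩, ⟨hs₀, ht₀⟩, hq⟩ := hXS (left_mem q b)
  obtain ⟨⟨s, t₁⟩, ⟨hs, ht₁⟩, hb⟩ := hXS (right_mem q b)
  simp only at hq hb hs₀ ht₀ hs ht₁
  have hseg : ∀ s' ∈ S, ∀ t' ∈ Icc (0:ℝ) 1, H s' t' ∈ EL q b → S ⊆ seg s₀ s' := by
    intro s' hs' t' ht' hel
    refine hmin _ (h.sc _ _) ?_ (seg_sub hS hs₀ hs')
    rw [← el_seg hel]
    refine seg_sub (hh_cont cH (h.sc _ _)) ?_ (mem_hh (right_mem _ _) ht')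
    rw [← hq]
    exact mem_hh (left_mem _ _) ht₀
  have hSs : S ⊆ seg s₀ s := hseg s hs t₁ ht₁ (by rw [hb]; exact mem_el q b)
  have hsS : seg s₀ s ⊆ S := seg_sub hS hs₀ hs
  have hpre : ∀ s' ∈ S, ∀ t' ∈ Icc (0:ℝ) 1, H s' t' ∈ EL q b → s' ∈ EL s₀ s :=
    fun s' hs' t' ht' hel => ⟨hSs hs', hseg s' hs' t' ht' hel hs⟩
  refine ⟨s₀, s, hsS.trans hSC, ?_, ?_⟩
  swap
  · intro x hx
    obtain ⟨⟨s', t'⟩, ⟨hs', ht'⟩, rfl⟩ := hXS hx.1
    exact mem_hh (hpre s' hs' t' ht' hx) ht'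
  by_contra hcon
  push Not at hcon
  obtain ⟨a, ha, hab⟩ := hnt
  have hε : 0 < dist a b := dist_pos.2 hab
  have hqb : q ≠ b := by
    rintro rfl
    exact hab (el_self q ha)
  obtain ⟨ρ, hρ, hρ'⟩ := Metric.uniformContinuousOn_iff.1
    ((isCompact_univ.prod isCompact_Icc).uniformContinuousOn_of_continuous
      (s := (univ : Set M) ×ˢ Icc (0:ℝ) 1) cH.continuousOn) (dist a b) hε
  obtain ⟨W, Q, hW, hWb, hQ, hQS, hsQ, hcov⟩ := h.small hcon (half_pos hρ)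
  obtain ⟨n, hn⟩ := exists_nat_one_div_lt hρ
  obtain ⟨R, hR⟩ : ∃ R : ℕ → Set M, ∀ j, R j = (fun q : M × ℝ => H q.1 q.2) ''
      (W ×ˢ Icc ((j : ℝ) / ((n : ℝ) + 1)) (min 1 (((j : ℝ) + 1) / ((n : ℝ) + 1)))) :=
    ⟨_, fun _ => rfl⟩
  have hn0 : (0 : ℝ) < (n : ℝ) + 1 := by positivity
  have hRc : ∀ j, Cont (R j) := by
    intro j
    rw [hR]
    exact ⟨(hW.cpt.prod isCompact_Icc).image cH,
      (hW.con.prod isPreconnected_Icc).image _ cH.continuousOn⟩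
  have hRd : ∀ j, ∀ x ∈ R j, ∀ y ∈ R j, dist x y < dist a b := by
    intro j x hx y hy
    rw [hR] at hx hy
    obtain ⟨⟨w, t⟩, ⟨hw, ht⟩, rfl⟩ := hx
    obtain ⟨⟨w', t'⟩, ⟨hw', ht'⟩, rfl⟩ := hy
    simp only at hw ht hw' ht'
    have hj0 : (0 : ℝ) ≤ (j : ℝ) / ((n : ℝ) + 1) := by positivity
    have hlen : ((j : ℝ) + 1) / ((n : ℝ) + 1) = (j : ℝ) / ((n : ℝ) + 1) + 1 / ((n : ℝ) + 1) := by
      ring
    have h1 := ht.2.trans (min_le_right _ _)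
    have h2 := ht'.2.trans (min_le_right _ _)
    refine hρ' (w, t) ⟨mem_univ _, hj0.trans ht.1, ht.2.trans (min_le_left _ _)⟩ (w', t')
      ⟨mem_univ _, hj0.trans ht'.1, ht'.2.trans (min_le_left _ _)⟩ ?_
    rw [Prod.dist_eq]
    refine max_lt ?_ ?_
    · have h3 := Metric.mem_ball.1 (hWb hw)
      have h4 := Metric.mem_ball.1 (hWb hw')
      have h5 := dist_triangle_right w w' s
      show dist w w' < ρ
      linarith
    · show dist t t' < ρ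
      rw [Real.dist_eq, abs_lt]
      constructor
      · linarith [ht.1, ht'.1]
      · linarith [ht.1, ht'.1]
  obtain ⟨B, hB⟩ : ∃ B : Set M, B = HH H Q ∪ ⋃ j ∈ (Finset.range (n + 2) : Set ℕ),
      (if Disjoint (R j) (EL q b) then R j else ∅) := ⟨_, rfl⟩
  have hBc : IsClosed B := by
    rw [hB]
    refine (((hQ.prod isCompact_Icc).image cH).isClosed).union ?_
    refine (Finset.range (n + 2)).finite_toSet.isClosed_biUnion fun j _ => ?_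
    split_ifs
    · exact (hRc j).cpt.isClosed
    · exact isClosed_empty
  have hBb : b ∉ B := by
    rw [hB]
    rintro (⟨⟨s', t'⟩, ⟨hs', ht'⟩, hH⟩ | hb')
    · simp only at hs' ht' hH
      have h1 := hpre s' (hsS (hQS hs')) t' ht' (by rw [hH]; exact mem_el q b)
      rw [hcon s' h1] at hs'
      exact hsQ hs'
    · obtain ⟨j, -, hj⟩ := mem_iUnion₂.1 hb'
      split_ifs at hj with h1
      · exact Set.disjoint_left.1 h1 hj (mem_el q b)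
      · exact hj
  refine hBb (closure_minimal ?_ hBc (h.dense hqb (right_mem q b)))
  rintro x ⟨hx, hxE⟩
  rw [hB]
  obtain ⟨⟨s', t'⟩, ⟨hs', ht'⟩, hH⟩ := hXS hx
  simp only at hs' ht' hH
  rcases hcov (hSs hs') with h1 | h1
  · left
    rw [← hH]
    exact mem_hh h1 ht'
  · right
    have hnt' : 0 ≤ t' * ((n : ℝ) + 1) := mul_nonneg ht'.1 hn0.le
    have hj1 := Nat.floor_le hnt'
    have hj2 := Nat.lt_floor_add_one (t' * ((n : ℝ) + 1))
    obtain ⟨j, hj⟩ : ∃ j, j = ⌊t' * ((n : ℝ) + 1)⌋₊ := ⟨_, rfl⟩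
    rw [← hj] at hj1 hj2
    have hxR : x ∈ R j := by
      rw [hR]
      refine ⟨(s', t'), ⟨h1, ?_, le_min ht'.2 ?_⟩, hH⟩
      · rw [div_le_iff₀ hn0]
        exact hj1
      · rw [le_div_iff₀ hn0]
        exact hj2.le
    have hjn : j < n + 2 := by
      have h2 : (j : ℝ) ≤ (n : ℝ) + 1 := hj1.trans (mul_le_of_le_one_left hn0.le ht'.2)
      have h3 : j ≤ n + 1 := by exact_mod_cast h2
      omega
    refine mem_iUnion₂.2 ⟨j, by simpa using hjn, ?_⟩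
    rw [if_pos]
    · exact hxR
    · by_contra hd
      rw [Set.not_disjoint_iff] at hd
      obtain ⟨t, ht1, ht2⟩ := hd
      obtain ⟨w', -, hw2, -, -, hw5⟩ := h.fw hx fun h2 => hxE ⟨hx, h2⟩
      have h2 := hw5 (R j) (hRc j) hxR ⟨t, ht1, ht2⟩
      have h3 : a ∈ R j := h2 (el_sub w' b (by rw [hw2]; exact ha))
      exact lt_irrefl _ (hRd j a h3 b (h2 (right_mem _ _)))

/-- no end layer covers its segment -/
def NE (H : M → ℝ → M) : Prop :=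
  ∀ q b : M, (∃ x ∈ EL q b, x ≠ b) → ¬ seg q b ⊆ HH H (EL q b)

theorem ne_of_nonest (h : LD M) (cH : Continuous (fun q : M × ℝ => H q.1 q.2))
    (hn : ∀ q b : ℕ → M, (∀ n, ∃ x ∈ EL (q n) (b n), x ≠ b n) →
      (∀ n, seg (q n) (b n) ⊆ HH H (EL (q n) (b n))) →
      (∀ n, seg (q (n + 1)) (b (n + 1)) ⊆ EL (q n) (b n)) → False) : NE H := by
  intro q₀ b₀ hnt hX
  have hstep : ∀ u : {u : M × M // (∃ x ∈ EL u.1 u.2, x ≠ u.2) ∧
      seg u.1 u.2 ⊆ HH H (EL u.1 u.2)}, ∃ u' : {u : M × M // (∃ x ∈ EL u.1 u.2, x ≠ u.2) ∧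
      seg u.1 u.2 ⊆ HH H (EL u.1 u.2)}, seg u'.1.1 u'.1.2 ⊆ EL u.1.1 u.1.2 := by
    rintro ⟨⟨q, b⟩, h1, h2⟩
    obtain ⟨s₀, s, h3, h4, h5⟩ := h.lift cH (h.el_cont q b) h2 h1
    exact ⟨⟨(s₀, s), h4, h3.trans h5⟩, h3⟩
  choose f hf using hstep
  obtain ⟨u, hu⟩ : ∃ u : ℕ → {u : M × M // (∃ x ∈ EL u.1 u.2, x ≠ u.2) ∧
      seg u.1 u.2 ⊆ HH H (EL u.1 u.2)}, ∀ n, u (n + 1) = f (u n) :=
    ⟨fun n => Nat.rec ⟨(q₀, b₀), hnt, hX⟩ (fun _ u => f u) n, fun _ => rfl⟩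
  refine hn (fun n => (u n).1.1) (fun n => (u n).1.2) (fun n => (u n).2.1) (fun n => (u n).2.2)
    fun n => ?_
  rw [hu]
  exact hf (u n)

end Pool.FL57
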