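import Pool.Agent.Work.MP_36677d_fl.FL4

/-! # Passing tame end layers (helper57) -/

set_option autoImplicit false

open Set Filter Topology

namespace Pool.FL57

open Pool.TL94 Pool.FA57

variable {M : Type} [MetricSpace M] [CompactSpace M]

theorem arc_meet (hHU : HU M) {w u q y : M} (hj : Joined w u) (hq : q ∈ seg w u)
    (h1 : y ∈ seg q w) (h2 : y ∈ seg q u) : y = q := by
  have hq' : Joined w q := joined_of_mem_seg hHU hj hq
  have h3 : q ∈ seg w y := seg_btw' hHU (hq'.symm.trans hj) hq h2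
  exact seg_antisymm hHU hq' (by rw [seg_comm]; exact h1) h3

theorem joined_track {H : M → ℝ → M} (cH : Continuous (fun q : M × ℝ => H q.1 q.2)) (x : M)
    {a b : ℝ} (ha : a ∈ Icc (0:ℝ) 1) (hb : b ∈ Icc (0:ℝ) 1) : Joined (H x a) (H x b) := by
  have hc : Continuous (fun t => H x t) := cH.comp (continuous_const.prodMk continuous_id)
  exact Pool.RY.RDD_joined_img (convex_Icc (0 : ℝ) 1) (f := fun t => H x t) hc.continuousOn ha hb

variable {H : M → ℝ → M} {v : M → ℝ → ℝ} {e δ : ℝ} {N : ℕ}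

/-- tame extension towards a closed set -/
theorem LD.step (h : LD M) (D : Dx H v e δ N) {T₀ G₀ Z : Set M} (hT₀ : Cont T₀)
    (hne : T₀.Nonempty) (hG₀ : Cont G₀) (hTG : T₀ ⊆ G₀) (hnw : ¬ Wild H v e N T₀)
    (hZ : IsClosed Z) (hTZ : Disjoint T₀ Z) (hGZ : (G₀ ∩ Z).Nonempty) :
    ∃ y W, Cont W ∧ y ∈ W ∧ y ∉ T₀ ∧ T₀ ⊆ W ∧ W ⊆ G₀ ∧ ¬ Wild H v e N W ∧ Disjoint W Z := by
  obtain ⟨C, hC, ⟨hTC, hCP⟩, hCG, hmin⟩ := exists_minc
    (P := fun C => T₀ ⊆ C ∧ (Wild H v e N C ∨ (C ∩ Z).Nonempty)) (K₀ := G₀)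
    ⟨hG₀, hTG, Or.inr hGZ⟩ (fun K hK => hne.mono hK.1) (by
      intro K hK hdec
      refine ⟨subset_iInter fun n => (hK n).2.1, ?_⟩
      by_cases hall : ∀ n, Wild H v e N (K n)
      · exact Or.inl (wild_dec D (fun n => (hK n).1.cpt) hdec hall)
      · push Not at hall
        obtain ⟨n₀, hn₀⟩ := hall
        have hanti : Antitone K := antitone_nat_of_succ_le hdec
        right
        refine meets_dec (fun n => (hK n).1.cpt) hdec hZ fun n => ?_
        rcases (hK (max n n₀)).2.2 with h1 | h1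
        · exact absurd (h1.mono (hanti (le_max_right _ _))) hn₀
        · exact h1.mono (inter_subset_inter_left _ (hanti (le_max_left _ _))))
  have hCT : ¬ C ⊆ T₀ := by
    intro h1
    rcases hCP with h2 | ⟨z, hz, hzZ⟩
    · exact hnw (h2.mono h1)
    · exact Set.disjoint_left.1 hTZ (h1 hz) hzZ
  obtain ⟨y, W, hW, hyW, hyT, hTW, hWC, hCW⟩ := h.ext hT₀ hne hC hTC hCT
  have hnP : ¬ (Wild H v e N W ∨ (W ∩ Z).Nonempty) := fun h1 => hCW (hmin W hW ⟨hTW, h1⟩ hWC)
  push Not at hnP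
  refine ⟨y, W, hW, hyW, hyT, hTW, hWC.trans hCG, hnP.1, ?_⟩
  rw [Set.disjoint_iff_inter_eq_empty]
  exact hnP.2

/-- passing a tame end layer -/
theorem passing (h : LD M) (D : Dx H v e δ N) (hNE : NE H) {p x : M} (hA : Adm H v e N p x)
    (hnw : ¬ Wild H v e N (EL p x)) :
    ∃ u ∈ HH H (EL p x), ∃ y ∈ seg p u, x ∈ seg p y ∧ y ∉ seg p x ∧
      pa H v e N y (Bey p y) = 1 := by
  classical
  have hT : Cont (EL p x) := h.el_cont p x
  have hxT : x ∈ EL p x := mem_el p x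
  have h1 : pa H v e N x (Bey p x) = 1 := hA.resolve_right hnw
  obtain ⟨j, hj, hvj, hjB, hpar⟩ := odd_class D hnw (satW_bey p hxT) hxT h1
  obtain ⟨u, hu⟩ : ∃ u, u = H x ((j : ℝ) / (N : ℝ)) := ⟨_, rfl⟩
  rw [← hu] at hjB hpar
  have hxu : x ∈ seg p u := hjB
  have huHH : u ∈ HH H (EL p x) := by rw [hu]; exact mem_hh hxT (D.D.mem_t hj.le)
  have huT : u ∉ EL p x := by
    rw [hu]
    exact fun h2 => Set.disjoint_left.1 (di_disj hnw hj hxT hvj.le)
      (di_mem (H := H) (i := j) hxT D.D.N_pos).1 h2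
  have huK : u ∉ seg p x := fun h2 => huT ⟨h2, hxu⟩
  obtain ⟨F, hF⟩ : ∃ F, F = closure (seg p u \ seg p x) := ⟨_, rfl⟩
  have hFc : Cont F := by
    rw [hF]
    exact h.clo (h.sc p x) (left_mem _ _) (seg_mono hxu) huK
  have huF : u ∈ F := by rw [hF]; exact subset_closure ⟨right_mem _ _, huK⟩
  have hFX : F ⊆ seg p u := by
    rw [hF]
    exact closure_minimal sdiff_subset (isClosed_seg _ _)
  have hcov : seg p u ⊆ seg p x ∪ F := by rw [hF]; exact cov _ _
  have hAB : ∀ w ∈ clW (EL p x) u, x ∈ seg p w := by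
    rintro w ⟨C, hC, hw, huC, hd⟩
    exact (satW_bey p hxT C hC hd u huC w hw).1 hxu
  have hFT : (F ∩ EL p x).Nonempty := by
    obtain ⟨w, -, hw1, hw2⟩ := isPreconnected_closed_iff.1 (h.sc p u).con (seg p x) F
      (isClosed_seg _ _) hFc.cpt.isClosed hcov ⟨p, left_mem _ _, left_mem _ _⟩
      ⟨u, right_mem _ _, huF⟩
    by_cases hw : w ∈ EL p x
    · exact ⟨w, hw2, hw⟩
    · have hxw : x ∉ seg p w := fun h2 => hw ⟨hw1, h2⟩
      rcases h.sub hFc hw2 huF hxu with h2 | h2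
      · exact absurd h2 hxw
      · exact ⟨x, h2, hxT⟩
  by_cases hc : ∀ w ∈ F, w ∈ seg p x → w ∈ EL p x
  · -- case 1
    have hZ : ∀ i : ℕ, ∃ Z : Set M, IsClosed Z ∧ Disjoint Z (EL p x) ∧
        (H x ((i : ℝ) / (N : ℝ)) ∈ clW (EL p x) u → ∃ C ⊆ Z, Cont C ∧
          H x ((i : ℝ) / (N : ℝ)) ∈ C ∧ u ∈ C) := by
      intro i
      by_cases hi : H x ((i : ℝ) / (N : ℝ)) ∈ clW (EL p x) u
      · obtain ⟨C, hC, h2, h3, h4⟩ := hi
        exact ⟨C, hC.cpt.isClosed, h4, fun _ => ⟨C, Subset.rfl, hC, h2, h3⟩⟩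
      · exact ⟨∅, isClosed_empty, Set.empty_disjoint _, fun h2 => absurd h2 hi⟩
    choose Z hZ1 hZ2 hZ3 using hZ
    obtain ⟨y, W, hW, hyW, hyT, hTW, hWG, hWn, hWZ⟩ := h.step D (T₀ := EL p x) (G₀ := EL p x ∪ F)
      (Z := {u} ∪ ⋃ i ∈ (Finset.range N : Set ℕ), Z i) hT ⟨x, hxT⟩
      (hT.union hFc (by rw [inter_comm]; exact hFT)) subset_union_left hnw
      (isClosed_singleton.union ((Finset.range N).finite_toSet.isClosed_biUnion fun i _ => hZ1 i))
      (by
        rw [Set.disjoint_left]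
        rintro a ha (hb | hb)
        · rw [mem_singleton_iff.1 hb] at ha
          exact huT ha
        · obtain ⟨i, -, hi⟩ := mem_iUnion₂.1 hb
          exact Set.disjoint_left.1 (hZ2 i) hi ha)
      ⟨u, Or.inr huF, Or.inl rfl⟩
    have hyF : y ∈ F := (hWG hyW).resolve_left hyT
    have hyK : y ∉ seg p x := fun h2 => hyT (hc y hyF h2)
    have hyu : y ∈ seg p u := hFX hyF
    have hxy : x ∈ seg p y := by
      by_contra hxy
      obtain ⟨w, hw0, hw1, hw2⟩ := isPreconnected_closed_iff.1 (h.sc p y).con (seg p x) F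
        (isClosed_seg _ _) hFc.cpt.isClosed ((seg_mono hyu).trans hcov)
        ⟨p, left_mem _ _, left_mem _ _⟩ ⟨y, right_mem _ _, hyF⟩
      exact hxy (seg_mono hw0 (hc w hw2 hw1).2)
    refine ⟨u, huHH, y, hyu, hxy, hyK, ?_⟩
    rw [pa_const D hW hWn (satW_bey p hyW) hyW (hTW hxT)]
    rw [← hpar]
    refine pa_congr D fun i hi hv => ⟨fun h2 => ?_, fun h2 => ?_⟩
    · by_contra hwA
      have hseg : ∃ q ∈ seg (H x ((i : ℝ) / (N : ℝ))) u, q ∈ EL p x := by
        by_contra hcon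
        push Not at hcon
        exact hwA ⟨_, h.sc _ _, left_mem _ _, right_mem _ _, Set.disjoint_left.2 hcon⟩
      obtain ⟨q, hq, hqT⟩ := hseg
      have hyq : y ∉ seg p q := by rw [el_seg hqT]; exact hyK
      have hj' : Joined (H x ((i : ℝ) / (N : ℝ))) u := by
        rw [hu]
        exact joined_track D.D.cH x (D.D.mem_t hi.le) (D.D.mem_t hj.le)
      have h3 := arc_meet h.hu hj' hq (h.btw h2 hyq) (h.btw hyu hyq)
      rw [h3] at hyT
      exact hyT hqT
    · obtain ⟨C, hCZ, hC, hwC, huC⟩ := hZ3 i h2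
      have hyC : y ∉ C := fun h3 => Set.disjoint_left.1 hWZ hyW
        (Or.inr (mem_iUnion₂.2 ⟨i, by simpa using hi, hCZ h3⟩))
      exact (seg_iff hC hwC huC hyC).2 hyu
  · -- case 2
    push Not at hc
    obtain ⟨w₀, hw₀F, hw₀K, hw₀T⟩ := hc
    have hxw₀ : x ∉ seg p w₀ := fun h2 => hw₀T ⟨hw₀K, h2⟩
    obtain ⟨w', hw1, hw2, hw3, hw4, hw5⟩ := h.fw hw₀K hxw₀
    have hw'F : seg w' x ⊆ F := hw5 F hFc hw₀F hFT
    have hTF : EL p x ⊆ F := by
      rw [← hw2]
      exact (el_sub w' x).trans hw'F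
    have hsegF : ∀ q ∈ EL p x, F ⊆ seg q u := by
      intro q hq
      rw [hF]
      refine closure_minimal ?_ (isClosed_seg _ _)
      rintro z ⟨hz1, hz2⟩
      refine h.btw hz1 ?_
      rw [el_seg hq]
      exact hz2
    have h2c : ∀ q ∈ EL p x, ∀ u' ∈ clW (EL p x) u, ¬ Joined q u' := by
      rintro q hq u' ⟨C, hC, hu'C, huC, hd⟩ hjq
      have hFa : F ⊆ seg q u' ∪ C := (hsegF q hq).trans (h.sub hC hu'C huC)
      have hqC : q ∉ C := fun h2 => Set.disjoint_left.1 hd h2 hq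
      have hone : ∀ s ∈ seg p x, s ∈ seg q u' → s = q := by
        intro s hs hsq
        by_contra hne
        have h3 : F ⊆ seg s u' ∪ C := by
          have h4 : seg q s ⊆ seg p x := seg_sub (h.sc p x) hq.1 hs
          rw [hF]
          refine closure_minimal ?_ ((isClosed_seg _ _).union hC.cpt.isClosed)
          rintro z ⟨hz1, hz2⟩
          rcases hFa (by rw [hF]; exact subset_closure ⟨hz1, hz2⟩) with h5 | h5
          · exact Or.inl (h.btw h5 fun h6 => hz2 (h4 h6))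
          · exact Or.inr h5
        rcases h3 (hTF hq) with h4 | h4
        · refine hne (seg_antisymm h.hu hjq.symm ?_ ?_)
          · rw [seg_comm]
            exact hsq
          · rw [seg_comm]
            exact h4
        · exact hqC h4
      have hTq : ∀ t ∈ EL p x, t = q := by
        intro t ht
        rcases hFa (hTF ht) with h3 | h3
        · exact hone t ht.1 h3
        · exact absurd ht (fun h4 => Set.disjoint_left.1 hd h3 h4)
      have hxq : x = q := hTq x hxT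
      have hsub : seg w' x ⊆ {q} ∪ C := by
        intro z hz
        rcases hFa (hw'F hz) with h3 | h3
        · exact Or.inl (hone z (hw4 hz) h3)
        · exact Or.inr h3
      have hw'C : w' ∈ C := by
        rcases hsub (left_mem _ _) with h3 | h3
        · exact absurd ((mem_singleton_iff.1 h3).trans hxq.symm) hw3
        · exact h3
      obtain ⟨a, -, ha1, ha2⟩ := isPreconnected_closed_iff.1 (h.sc w' x).con {q} C
        isClosed_singleton hC.cpt.isClosed hsub ⟨x, right_mem _ _, hxq⟩ ⟨w', left_mem _ _, hw'C⟩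
      rw [mem_singleton_iff.1 ha1] at ha2
      exact hqC ha2
    have hHA : ∀ z ∈ EL p x, ∀ t ∈ Icc (0:ℝ) 1, H z t ∈ clW (EL p x) u := by
      intro z hz t ht
      have h2 : pa H v e N z (clW (EL p x) u) = 1 := by
        rw [pa_const D hT hnw (satW_cl _ u) hz hxT]
        exact hpar
      obtain ⟨i, hi, -, hu'⟩ := pa_mem D h2
      have hc : Continuous (fun t => H z t) := D.D.cH.comp (continuous_const.prodMk continuous_id)
      have hC : Cont ((fun t => H z t) '' Icc (0:ℝ) 1) :=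
        ⟨isCompact_Icc.image hc, isPreconnected_Icc.image _ hc.continuousOn⟩
      refine (satW_cl (EL p x) u _ hC ?_ _ ⟨_, D.D.mem_t hi.le, rfl⟩ _ ⟨t, ht, rfl⟩).1 hu'
      rw [Set.disjoint_left]
      rintro _ ⟨s, hs, rfl⟩ hq
      exact h2c _ hq _ hu' (joined_track D.D.cH z hs (D.D.mem_t hi.le))
    have hHHA : ∀ w ∈ HH H (EL p x), w ∈ clW (EL p x) u := by
      rintro _ ⟨⟨z, t⟩, ⟨hz, ht⟩, rfl⟩
      exact hHA z hz t ht
    have hAK : ∀ w ∈ clW (EL p x) u, w ∉ seg p x := by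
      intro w hw hwK
      have h2 : w ∈ EL p x := ⟨hwK, hAB w hw⟩
      obtain ⟨C, hC, hwC, -, hd⟩ := hw
      exact Set.disjoint_left.1 hd hwC h2
    have hFxu : F ⊆ seg u x := by
      rw [seg_comm]
      exact hsegF x hxT
    have hTW : EL p x ⊆ EL u x := by
      intro q hq
      refine ⟨hFxu (hTF hq), ?_⟩
      rw [seg_comm]
      exact hsegF q hq (hTF hxT)
    have hw₀W : w₀ ∈ EL u x := by
      refine ⟨hFxu hw₀F, ?_⟩
      rcases h.sub (h.sc u w₀) (right_mem _ _) (left_mem _ _) hxu with h2 | h2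
      · exact absurd h2 hxw₀
      · exact h2
    have hdis : ∀ w ∈ HH H (EL p x), w ∉ EL u x := by
      intro w hw hwW
      obtain ⟨C, hC, hwC, huC, hd⟩ := hHHA w hw
      exact Set.disjoint_left.1 hd (seg_sub hC huC hwC hwW.2) hxT
    have hHHc := hh_cont D.D.cH hT
    have hWn : ¬ Wild H v e N (EL u x) := by
      intro hw
      obtain ⟨t, ht1, ht2⟩ := hw.meets D
      refine hNE u x ⟨w₀, hw₀W, ?_⟩ ?_
      · rintro rfl
        exact hw₀T hxT
      · rw [← el_seg ht1]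
        exact seg_sub (hh_cont D.D.cH (h.el_cont u x)) (hh_mono hTW huHH) ht2
    obtain ⟨y, W, hW, hyW, hyT, hTW', hWG, hWn', hWZ⟩ := h.step D (T₀ := EL u x) (G₀ := F)
      (Z := HH H (EL p x)) (h.el_cont u x) ⟨x, mem_el u x⟩ hFc
      ((el_sub u x).trans (seg_sub hFc huF (hTF hxT))) hWn hHHc.cpt.isClosed
      (Set.disjoint_left.2 fun w hw hw' => hdis w hw' hw) ⟨u, huF, huHH⟩
    have hyF : y ∈ F := hWG hyW
    have hyu : y ∈ seg p u := hFX hyF
    have hxuy : x ∉ seg u y := fun h2 => hyT ⟨hFxu hyF, h2⟩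
    have hyA : y ∈ clW (EL p x) u := by
      refine ⟨seg u y, h.sc u y, right_mem _ _, left_mem _ _, ?_⟩
      rw [Set.disjoint_left]
      intro t ht1 ht2
      exact hxuy (seg_mono ht1 (hTW ht2).2)
    refine ⟨u, huHH, y, hyu, hAB y hyA, hAK y hyA, ?_⟩
    refine pa_one D fun i hi hv => ?_
    have hyHH : y ∉ HH H (EL p x) := fun h2 => Set.disjoint_left.1 hWZ hyW h2
    have h3 : y ∈ seg p (H x ((i : ℝ) / (N : ℝ))) :=
      (seg_iff hHHc (mem_hh hxT (D.D.mem_t hi.le)) huHH hyHH).2 hyu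
    have h4 := di_disj hWn' hi hyW hv.le
    exact (seg_iff (di_cont D hW i) (di_mem (H := H) (i := i) (hTW' (mem_el u x)) D.D.N_pos).1
      (di_mem (H := H) (i := i) hyW D.D.N_pos).1
      (fun h5 => Set.disjoint_left.1 h4 h5 hyW)).1 h3

end Pool.FL57
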