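import Pool.Agent.Work.MP_36677d_fl.FL5
import Pool.Agent.Work.MP_36677d_gt_h94.TreeLike

/-! # Escaping from wild end layers; the theorem (helper57) -/

set_option autoImplicit false

open Set Filter Topology

namespace Pool.FL57

open Pool.TL94 Pool.FA57

variable {M : Type} [MetricSpace M] [CompactSpace M] {H : M → ℝ → M} {v : M → ℝ → ℝ} {e δ : ℝ}
  {N : ℕ}

/-- there is an admissible point outside `T` which can be reached from `T` -/
def Esc (H : M → ℝ → M) (v : M → ℝ → ℝ) (e : ℝ) (N : ℕ) (T : Set M) : Prop :=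
  ∃ p ∈ T, ∃ x, x ∉ T ∧ Adm H v e N p x ∧ seg p x ⊆ T ∪ HH H T

/-- continua reached from a wild end layer do not return -/
theorem LD.ret (h : LD M) (D : Dx H v e δ N) (hNE : NE H) {p x : M}
    (hw : Wild H v e N (EL p x)) {C : Set M} (hC : Cont C) (hCT : (C ∩ EL p x).Nonempty)
    (hsub : C ⊆ EL p x ∪ HH H (EL p x)) {w : M} (hwC : w ∈ C) (hwK : w ∈ seg p x) :
    w ∈ EL p x := by
  by_contra hwT
  obtain ⟨w', -, hw2, hw3, -, hw5⟩ := h.fw hwK fun h1 => hwT ⟨hwK, h1⟩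
  have h1 : seg w' x ⊆ C := hw5 C hC hwC hCT
  refine hNE w' x ?_ ?_
  · rw [hw2]
    obtain ⟨a, ha, b, hb, hab⟩ := hw.nontrivial D
    by_cases hax : a = x
    · refine ⟨b, hb, ?_⟩
      rw [← hax]
      exact fun h2 => hab h2.symm
    · exact ⟨a, ha, hax⟩
  · refine (h.dense hw3).trans (closure_minimal ?_ ?_)
    · rintro z ⟨hz1, hz2⟩
      rw [hw2] at hz2 ⊢
      exact (hsub (h1 hz1)).resolve_left hz2
    · exact (hh_cont D.D.cH (h.el_cont w' x)).cpt.isClosed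

/-- combination of admissible points -/
theorem LD.comb (h : LD M) (D : Dx H v e δ N) (hNE : NE H) {p x p₂ x₂ : M}
    (hw : Wild H v e N (EL p x)) (hp₂ : p₂ ∈ EL p x) (hx₂ : x₂ ∉ EL p x)
    (hA : Adm H v e N p₂ x₂) (hsub : seg p₂ x₂ ⊆ EL p x ∪ HH H (EL p x)) :
    x₂ ∉ seg p x ∧ x ∈ seg p x₂ ∧ Adm H v e N p x₂ ∧ seg p x₂ ⊆ seg p x ∪ seg p₂ x₂ := by
  have hR : ∀ w ∈ seg p₂ x₂, w ∈ seg p x → w ∈ EL p x := fun w hw1 hw2 =>
    h.ret D hNE hw (h.sc p₂ x₂) ⟨p₂, left_mem _ _, hp₂⟩ hsub hw1 hw2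
  have h1 : x₂ ∉ seg p x := fun h2 => hx₂ (hR x₂ (right_mem _ _) h2)
  have h2 : seg p x₂ ⊆ seg p x ∪ seg p₂ x₂ := by
    have h3 := h.sub (p := p) (h.sc p₂ x₂) (left_mem _ _) (right_mem _ _)
    rwa [el_seg hp₂] at h3
  have h3 : x ∈ seg p x₂ := by
    by_contra h4
    have h5 : seg p x ⊆ seg p x₂ ∪ seg p₂ x₂ := by
      have h6 := h.sub (p := p) (h.sc p₂ x₂) (right_mem _ _) (left_mem _ _)
      rwa [el_seg hp₂] at h6
    obtain ⟨w, hw0, hw1, hw2⟩ := isPreconnected_closed_iff.1 (h.sc p x).con (seg p x₂)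
      (seg p₂ x₂) (isClosed_seg _ _) (isClosed_seg _ _) h5 ⟨p, left_mem _ _, left_mem _ _⟩
      ⟨p₂, hp₂.1, left_mem _ _⟩
    exact h4 (seg_mono hw1 (hR w hw2 hw0).2)
  have hiff : ∀ y, x₂ ∈ seg p y ↔ x₂ ∈ seg p₂ y := by
    intro y
    rw [seg_comm p y, seg_comm p₂ y]
    exact seg_iff (h.sc p x) (left_mem _ _) hp₂.1 h1
  refine ⟨h1, h3, ?_, h2⟩
  rcases hA with h4 | h4
  · left
    rw [← h4]
    exact pa_congr D fun i _ _ => hiff _
  · right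
    refine h4.mono ?_
    rintro y ⟨hy1, hy2⟩
    have h5 : x₂ ∈ seg p y := (hiff y).2 hy2
    have h6 : y ∉ seg p x := fun h7 => h1 (seg_mono h7 h5)
    refine ⟨?_, h5⟩
    rw [seg_comm p x₂]
    rw [seg_comm p₂ x₂] at hy1
    exact (seg_iff (h.sc p x) (left_mem _ _) hp₂.1 h6).2 hy1

/-- wild continua can be left -/
theorem escape (h : LD M) (D : Dx H v e δ N) (hNE : NE H) {T₀ : Set M} (hT₀ : Cont T₀)
    (hw₀ : Wild H v e N T₀) : Esc H v e N T₀ := by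
  by_contra hcon
  obtain ⟨T, hT, ⟨hw, hne⟩, -, hmin⟩ := exists_minc
    (P := fun C => Wild H v e N C ∧ ¬ Esc H v e N C) (K₀ := T₀) ⟨hT₀, hw₀, hcon⟩
    (fun K hK => hK.1.nonempty) (by
      intro K hK hdec
      refine ⟨wild_dec D (fun n => (hK n).1.cpt) hdec fun n => (hK n).2.1, ?_⟩
      rintro ⟨p, hp, x, hx, hA, hs⟩
      rw [mem_iInter] at hx
      push Not at hx
      obtain ⟨n, hn⟩ := hx
      exact (hK n).2.2 ⟨p, mem_iInter.1 hp n, x, hn, hA, hs.trans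
        (union_subset_union (iInter_subset _ n) (hh_mono (iInter_subset _ n)))⟩)
  obtain ⟨p, hp⟩ := hw.nonempty
  obtain ⟨x, hx, hA, hmax⟩ := exists_maxadm h D hT hp
  have hseg : seg p x ⊆ T := seg_sub hT hp hx
  have helT : EL p x ⊆ T := (el_sub p x).trans hseg
  by_cases hw1 : Wild H v e N (EL p x)
  · have hnT : ¬ T ⊆ EL p x := by
      intro h1
      have h2 := (h1 hp).2
      rw [seg_self] at h2
      rw [mem_singleton_iff.1 h2] at hw1
      exact not_wild_point D (el_self p) hw1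
    have hE : Esc H v e N (EL p x) := by
      by_contra hE
      exact hnT (hmin _ (h.el_cont p x) ⟨hw1, hE⟩ helT)
    obtain ⟨p₂, hp₂, x₂, hx₂, hA₂, hs₂⟩ := hE
    obtain ⟨k1, k2, k3, k4⟩ := h.comb D hNE hw1 hp₂ hx₂ hA₂ hs₂
    refine hne ⟨p, hp, x₂, fun h1 => k1 (hmax x₂ h1 k3 k2), k3, k4.trans (union_subset ?_ ?_)⟩
    · exact hseg.trans subset_union_left
    · exact hs₂.trans (union_subset_union helT (hh_mono helT))
  · obtain ⟨u, hu, y, hy, hxy, hyx, hpar⟩ := passing h D hNE hA hw1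
    refine hne ⟨p, hp, y, fun h1 => hyx (hmax y h1 (Or.inl hpar) hxy), Or.inl hpar, ?_⟩
    refine (seg_mono hy).trans (seg_sub (hT.union (hh_cont D.D.cH hT) (hw.meets D)) (Or.inl hp)
      (Or.inr (hh_mono helT hu)))

theorem no_dx [ConnectedSpace M] (h : LD M) (D : Dx H v e δ N) (hNE : NE H) (p : M) : False := by
  obtain ⟨x, -, hA, hmax⟩ := exists_maxadm h D (T := univ) ⟨isCompact_univ, isPreconnected_univ⟩
    (mem_univ p)
  by_cases hw : Wild H v e N (EL p x)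
  · obtain ⟨p₂, hp₂, x₂, hx₂, hA₂, hs₂⟩ := escape h D hNE (h.el_cont p x) hw
    obtain ⟨k1, k2, k3, -⟩ := h.comb D hNE hw hp₂ hx₂ hA₂ hs₂
    exact k1 (hmax x₂ (mem_univ _) k3 k2)
  · obtain ⟨u, -, y, -, hxy, hyx, hpar⟩ := passing h D hNE hA hw
    exact hyx (hmax y (mem_univ _) (Or.inl hpar) hxy)

/-- the theorem -/
theorem mainL [ConnectedSpace M] (hT : TreeLike M)
    (hd : ∀ X : Set M, IsClosed X → IsConnected X → X.Nontrivial → ∃ A B : Set M,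
      IsClosed A ∧ IsConnected A ∧ IsClosed B ∧ IsConnected B ∧ A ≠ X ∧ B ≠ X ∧ A ∪ B = X)
    (L : Set M → M → Set M)
    (hL : ∀ X p, L X p = {y ∈ X | ∀ K ⊆ X, IsClosed K → IsConnected K → p ∈ K → y ∈ K → K = X})
    (hn : ¬ ∃ (h : C(M × unitInterval, M)) (X : ℕ → Set M) (p : ℕ → M), ∀ n, IsClosed (X n) ∧
      IsConnected (X n) ∧ (X n).Nontrivial ∧ p n ∈ X n ∧ X (n + 1) ⊆ L (X n) (p n) ∧
      X n ⊆ h '' (L (X n) (p n) ×ˢ univ))
    (g : C(M × unitInterval, M × unitInterval)) : ∃ p, g p = p := by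
  have hHU := hT.hu
  have h : LD M := by
    refine ⟨hHU, fun a b => cont_seg_of hHU ⟨isCompact_univ, isPreconnected_univ⟩ (mem_univ a)
      (mem_univ b), ?_⟩
    intro C hC x hx y hy hxy
    obtain ⟨A, B, h1, h2, h3, h4, h5, h6, h7⟩ := hd C hC.cpt.isClosed ⟨⟨x, hx⟩, hC.con⟩
      ⟨x, hx, y, hy, hxy⟩
    have hA : A ⊆ C := by rw [← h7]; exact subset_union_left
    have hB : B ⊆ C := by rw [← h7]; exact subset_union_right
    exact ⟨A, B, ⟨h1.isCompact, h2.isPreconnected⟩, ⟨h3.isCompact, h4.isPreconnected⟩, hA, hB,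
      fun h8 => h5 (Subset.antisymm hA h8), fun h8 => h6 (Subset.antisymm hB h8), h7.ge⟩
  by_contra hcon
  push Not at hcon
  obtain ⟨v, e, δ, N, D⟩ := exists_dx g hcon
  obtain ⟨p⟩ := (inferInstance : Nonempty M)
  refine no_dx h D (ne_of_nonest h D.D.cH ?_) p
  intro q b h1 h2 h3
  have hEL : ∀ n, EL (q n) (b n) ⊆ L (seg (q n) (b n)) (q n) := by
    intro n y hy
    rw [hL]
    refine ⟨hy.1, fun K hKX hK hKc hqK hyK => Subset.antisymm hKX ?_⟩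
    rw [← el_seg hy]
    exact seg_sub ⟨hK.isCompact, hKc.isPreconnected⟩ hqK hyK
  refine hn ⟨⟨fun y => (g y).1, by fun_prop⟩, fun n => seg (q n) (b n), q, fun n =>
    ⟨isClosed_seg _ _, ⟨⟨q n, left_mem _ _⟩, (h.sc _ _).con⟩, ?_, left_mem _ _,
      (h3 n).trans (hEL n), ?_⟩⟩
  · obtain ⟨x, hx, hxb⟩ := h1 n
    exact ⟨x, hx.1, b n, right_mem _ _, hxb⟩
  · intro y hy
    obtain ⟨⟨z, t⟩, ⟨hz, -⟩, rfl⟩ := h2 n hy
    exact ⟨(z, projIcc 0 1 zero_le_one t), ⟨hEL n hz, mem_univ _⟩, rfl⟩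

end Pool.FL57
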